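import Mathlib

/-! The final inequality of the recursion. -/

set_option autoImplicit false

namespace Pool.Agent.H15.MC

lemma fin_alg (N L L' δ a P T x1 x2 ns S : ℝ) (b : ℕ) (hb : 1 ≤ b) (hN : 0 < N) (hL : 100 ≤ L) (hL' : L + 1 ≤ L')
    (hδ : δ = 1 / L ^ (b + 5)) (ha : 0 < a) (hP : 0 < P) (hT1 : a * P * (1 - δ) ≤ T) (hT2 : T ≤ a * P)
    (hx1 : x1 ≤ N * δ) (hx10 : 0 ≤ x1) (hx2 : x2 ≤ N * P * δ) (hns : ns ≤ N * P * δ) (hS : 0 ≤ S)
    (h : S * ((1 - 2 * δ) * T) ≤ (1 + δ) * a * (N * P / L' ^ b) + a * (3 * L) ^ 2 * (ns + x2) + x1 * (3 * L) * T) :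
    S ≤ N / L ^ b := by
  have hL0 : 0 < L := by linarith
  have hL'0 : 0 < L' := by linarith
  obtain ⟨q, hq⟩ : ∃ q : ℝ, q = 1 / L ^ b := ⟨_, rfl⟩
  have hq0 : 0 < q := by rw [hq]; positivity
  have hq1 : q ≤ 1 := by
    rw [hq, div_le_one (by positivity)]; exact one_le_pow₀ (by linarith)
  have hδq : δ = q / L ^ 5 := by rw [hδ, hq, pow_add]; field_simp
  have hδ0 : 0 < δ := by rw [hδ]; positivity
  have hL3 : 0 < L ^ 3 := by positivity
  have hδ3 : δ * L ^ 2 = q * (1 / L ^ 3) := by rw [hδq]; field_simp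
  obtain ⟨t, ht⟩ : ∃ t : ℝ, t = 1 / L ^ 3 := ⟨_, rfl⟩
  have ht0 : 0 < t := by rw [ht]; positivity
  rw [← ht] at hδ3
  have htL : t * (50 * L) ≤ 1 / 2 * (1 / 100) := by
    rw [ht]
    have : 1 / L ^ 3 * (50 * L) = 50 / L ^ 2 := by field_simp
    rw [this, div_le_iff₀ (by positivity)]
    nlinarith only [hL]
  have hδt : δ ≤ t := by
    rw [hδ, ht]
    exact one_div_le_one_div_of_le (by positivity) (pow_le_pow_right₀ (by linarith) (by omega))
  have hδs : δ ≤ 1 / 100 := by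
    have : t ≤ 1 / 100 := by nlinarith only [htL, ht0, hL]
    linarith
  -- the power of L'
  have hpow : 1 / L' ^ b ≤ q * (1 - 1 / (2 * L)) := by
    have h1 : (L + 1) ^ b ≤ L' ^ b := pow_le_pow_left₀ (by linarith) hL' b
    have h2 : 1 / L' ^ b ≤ 1 / (L + 1) ^ b := one_div_le_one_div_of_le (by positivity) h1
    refine h2.trans ?_
    obtain ⟨c, rfl⟩ := Nat.exists_eq_add_of_le' hb
    have h3 : (L + 1) ^ (c + 1) = (L + 1) ^ c * (L + 1) := pow_succ _ _
    have h4 : L ^ c ≤ (L + 1) ^ c := pow_le_pow_left₀ hL0.le (by linarith) c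
    have h5 : 1 / (L + 1) ^ (c + 1) ≤ 1 / (L ^ c * (L + 1)) := by
      rw [h3]
      apply one_div_le_one_div_of_le (by positivity)
      exact mul_le_mul_of_nonneg_right h4 (by linarith)
    refine h5.trans ?_
    have h6 : q * (1 - 1 / (2 * L)) = (1 / L ^ c) * ((1 / L) * (1 - 1 / (2 * L))) := by
      rw [hq, pow_succ]; field_simp
    have h7 : 1 / (L ^ c * (L + 1)) = (1 / L ^ c) * (1 / (L + 1)) := by field_simp
    rw [h6, h7]
    apply mul_le_mul_of_nonneg_left _ (by positivity)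
    have h8 : 1 / L * (1 - 1 / (2 * L)) = (2 * L - 1) / (2 * L ^ 2) := by field_simp
    rw [h8, div_le_div_iff₀ (by linarith) (by positivity)]
    nlinarith only [hL]
  -- the inequality divided by a P
  have haP : 0 < a * P := by positivity
  have h1 : S * ((1 - 2 * δ) * (a * P * (1 - δ))) ≤ S * ((1 - 2 * δ) * T) := by
    apply mul_le_mul_of_nonneg_left _ hS
    exact mul_le_mul_of_nonneg_left hT1 (by linarith)
  have h2 : (1 + δ) * a * (N * P / L' ^ b) ≤ (a * P) * (N * ((1 + δ) * (q * (1 - 1 / (2 * L))))) := by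
    have h3 : (1 + δ) * a * (N * P / L' ^ b) = (a * P) * (N * ((1 + δ) * (1 / L' ^ b))) := by ring
    rw [h3]
    apply mul_le_mul_of_nonneg_left _ haP.le
    apply mul_le_mul_of_nonneg_left _ hN.le
    exact mul_le_mul_of_nonneg_left hpow (by linarith)
  have h3 : a * (3 * L) ^ 2 * (ns + x2) ≤ (a * P) * (N * (18 * (q * t))) := by
    have h4 : a * (3 * L) ^ 2 * (ns + x2) ≤ a * (3 * L) ^ 2 * (N * P * δ + N * P * δ) := by
      apply mul_le_mul_of_nonneg_left (by linarith) (by positivity)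
    refine h4.trans (le_of_eq ?_)
    rw [← hδ3]; ring
  have h4 : x1 * (3 * L) * T ≤ (a * P) * (N * (3 * (q * t))) := by
    have h5 : x1 * (3 * L) * T ≤ (N * δ) * (3 * L) * (a * P) := by
      apply mul_le_mul _ hT2 _ (by positivity)
      · exact mul_le_mul_of_nonneg_right hx1 (by positivity)
      · refine le_trans ?_ hT1
        have : 0 ≤ 1 - δ := by linarith
        positivity
    refine h5.trans ?_
    have h6 : (N * δ) * (3 * L) * (a * P) = (a * P) * (N * (3 * (δ * L))) := by ring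
    rw [h6]
    apply mul_le_mul_of_nonneg_left _ haP.le
    apply mul_le_mul_of_nonneg_left _ hN.le
    apply mul_le_mul_of_nonneg_left _ (by norm_num)
    rw [← hδ3]
    apply mul_le_mul_of_nonneg_left _ hδ0.le
    nlinarith only [hL]
  have h5 : (a * P) * (S * ((1 - 2 * δ) * (1 - δ))) ≤
      (a * P) * (N * ((1 + δ) * (q * (1 - 1 / (2 * L))) + 21 * (q * t))) := by
    linarith [show S * ((1 - 2 * δ) * (a * P * (1 - δ))) = (a * P) * (S * ((1 - 2 * δ) * (1 - δ))) by ring]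
  have h6 := le_of_mul_le_mul_left h5 haP
  have h7 : (1 + δ) * (q * (1 - 1 / (2 * L))) + 21 * (q * t) ≤ q * ((1 - 2 * δ) * (1 - δ)) := by
    have h8 : (1 + δ) * (1 - 1 / (2 * L)) + 21 * t ≤ (1 - 2 * δ) * (1 - δ) := by
      obtain ⟨r, hr⟩ : ∃ r : ℝ, r = 1 / (2 * L) := ⟨_, rfl⟩
      rw [← hr]
      have hr0 : 0 < r := by rw [hr]; positivity
      have h9 : 25 * t ≤ r := by
        rw [hr, le_div_iff₀ (by positivity)]
        nlinarith only [htL, ht0]
      nlinarith only [h9, hδt, hδ0, hr0, ht0]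
    have := mul_le_mul_of_nonneg_left h8 hq0.le
    linarith
  have h8 : S * ((1 - 2 * δ) * (1 - δ)) ≤ (N * q) * ((1 - 2 * δ) * (1 - δ)) := by
    have := mul_le_mul_of_nonneg_left h7 hN.le
    linarith
  have h9 : 0 < (1 - 2 * δ) * (1 - δ) := mul_pos (by linarith) (by linarith)
  have h10 := le_of_mul_le_mul_right h8 h9
  rw [hq] at h10
  linarith [show N * (1 / L ^ b) = N / L ^ b by ring]

end Pool.Agent.H15.MC
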