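import Pool.Agent.H15.JD.Ci

/-! One step of the recursion for the dead ends. -/

set_option autoImplicit false

namespace Pool.Agent.H15.MC
open Finset
open Pool.Agent.H15.JD (lp lp_nonneg lp_le sum_fib')

lemma core (N P s : ℕ) (A : Finset ℕ) (D : ℕ → Prop) [DecidablePred D] (v : ℕ → ℝ) (X1 X2 : Finset ℕ) (δ Λ T F : ℝ)
    (Dp : ℕ → Prop) [DecidablePred Dp] (hDp : ∀ m, Dp m → ∀ a ∈ A, ∀ n, n.Prime → n / a = m → (n + 1) / a = m → D n)
    (hs : s ≤ P) (hA : ∀ a ∈ A, 0 < a ∧ P - s ≤ a ∧ a ≤ P) (hT : T = ∑ a ∈ A, (a : ℝ)) (hδ : 0 ≤ δ) (hδ1 : δ ≤ 1 / 4)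
    (hΛ : 0 ≤ Λ) (hv0 : ∀ m, 0 ≤ v m) (hvΛ : ∀ m < 2 * (N * P), v m ≤ Λ) (hlΛ : ∀ m < 2 * (N * P), lp m ≤ Λ)
    (hTΛ : A.card * Λ ≤ δ * T)
    (hE1 : ∀ m ∈ Ico N (2 * N), m ∉ X1 → (1 - δ) * T ≤ ∑ a ∈ A, ∑ n ∈ Ico (a * m) (a * (m + 1)), lp n)
    (hE2 : ∀ n ∈ Ico (N * P) (2 * (N * P)), n ∉ X2 → ∑ a ∈ A, v (n / a) ≤ (1 + δ) * A.card)
    (hF : ∑ n ∈ Ico (N * P) (2 * (N * P)), (if D n then lp n else 0) ≤ F) :
    (∑ m ∈ Ico N (2 * N), if Dp m then v m else 0) * ((1 - 2 * δ) * T) ≤
      (1 + δ) * A.card * F + A.card * Λ ^ 2 * (N * s + X2.card) + X1.card * Λ * T := by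
  classical
  have hT0 : 0 ≤ T := by rw [hT]; exact sum_nonneg fun _ _ => Nat.cast_nonneg _
  obtain ⟨f, hf⟩ : ∃ f : ℕ → ℝ, ∀ n, f n = if D n then lp n else 0 := ⟨_, fun _ => rfl⟩
  have hf0 : ∀ n, 0 ≤ f n := by
    intro n; rw [hf]; split_ifs
    · exact lp_nonneg n
    · exact le_rfl
  have hfl : ∀ n, f n ≤ lp n := by
    intro n; rw [hf]; split_ifs
    · exact le_rfl
    · exact lp_nonneg n
  obtain ⟨g, hg⟩ : ∃ g : ℕ → ℝ, ∀ m, g m = ∑ a ∈ A, ∑ n ∈ Ico (a * m) (a * (m + 1)), f n := ⟨_, fun _ => rfl⟩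
  have hg0 : ∀ m, 0 ≤ g m := fun m => by rw [hg]; exact sum_nonneg fun _ _ => sum_nonneg fun _ _ => hf0 _
  -- (1)
  have h1 : ∀ m ∈ Ico N (2 * N), Dp m → m ∉ X1 → (1 - 2 * δ) * T ≤ g m := by
    intro m hm hD hX
    have hm' := mem_Ico.1 hm
    have h2 := hE1 m hm hX
    have h3 : ∑ a ∈ A, ∑ n ∈ Ico (a * m) (a * (m + 1)), lp n ≤ g m + A.card * Λ := by
      rw [hg, ← nsmul_eq_mul, ← sum_const, ← sum_add_distrib]
      apply sum_le_sum
      intro a ha
      obtain ⟨ha0, ha1, ha2⟩ := hA a ha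
      have h4 : ∑ n ∈ Ico (a * m) (a * (m + 1)), lp n ≤ ∑ n ∈ Ico (a * m) (a * (m + 1)), (f n + if n = a * (m + 1) - 1 then Λ else 0) := by
        apply sum_le_sum
        intro n hn
        rw [mem_Ico] at hn
        have hnlt : n < 2 * (N * P) := by
          refine lt_of_lt_of_le hn.2 ?_
          calc a * (m + 1) ≤ P * (2 * N) := Nat.mul_le_mul ha2 (by omega)
            _ = 2 * (N * P) := by ring
        by_cases h5 : n = a * (m + 1) - 1
        · rw [if_pos h5]
          have := hlΛ n hnlt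
          have := hf0 n
          linarith
        · rw [if_neg h5, add_zero]
          by_cases hpr : n.Prime
          · have h6 : n / a = m := by
              rw [Nat.div_eq_iff ha0]
              obtain ⟨q1, q2⟩ := hn
              rw [mul_comm] at q1
              rw [mul_add, mul_one, mul_comm a m] at q2
              omega
            have h7 : (n + 1) / a = m := by
              rw [Nat.div_eq_iff ha0]
              obtain ⟨q1, q2⟩ := hn
              rw [mul_comm] at q1
              rw [mul_add, mul_one, mul_comm a m] at q2 h5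
              omega
            rw [hf, if_pos (hDp m hD a ha n hpr h6 h7)]
          · have : lp n = 0 := by unfold Pool.Agent.H15.JD.lp; rw [if_neg hpr]
            rw [this]; exact hf0 n
      refine h4.trans ?_
      rw [sum_add_distrib, sum_ite_eq']
      split_ifs
      · exact le_rfl
      · linarith
    linarith
  -- (2)
  have h2 : (∑ m ∈ Ico N (2 * N), if Dp m then v m else 0) * ((1 - 2 * δ) * T) ≤ ∑ m ∈ Ico N (2 * N), v m * g m + X1.card * Λ * T := by
    have h3 : (∑ m ∈ Ico N (2 * N), if Dp m then v m else 0) * ((1 - 2 * δ) * T) ≤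
        ∑ m ∈ Ico N (2 * N), (v m * g m + if m ∈ X1 then Λ * T else 0) := by
      rw [sum_mul]
      apply sum_le_sum
      intro m hm
      have hm' := mem_Ico.1 hm
      have hvg := mul_nonneg (hv0 m) (hg0 m)
      have hΛT := mul_nonneg hΛ hT0
      by_cases hD : Dp m
      · rw [if_pos hD]
        by_cases hX : m ∈ X1
        · rw [if_pos hX]
          have hmlt : m < 2 * (N * P) ∨ P = 0 := by
            rcases Nat.eq_zero_or_pos P with h | h
            · right; exact h
            · left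
              have : N ≤ N * P := Nat.le_mul_of_pos_right N h
              omega
          rcases hmlt with hmlt | hP0
          · have h4 := hvΛ m hmlt
            have h5 : v m * ((1 - 2 * δ) * T) ≤ Λ * T := by
              apply mul_le_mul h4 _ (mul_nonneg (by linarith) hT0) hΛ
              nlinarith only [hT0, hδ]
            linarith
          · have hT00 : T = 0 := by
              rw [hT]
              apply sum_eq_zero
              intro a ha
              have := hA a ha
              omega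
            rw [hT00]
            have := mul_nonneg (hv0 m) (hg0 m)
            linarith [mul_zero (v m), mul_zero (1 - 2 * δ)]
        · rw [if_neg hX, add_zero]
          exact mul_le_mul_of_nonneg_left (h1 m hm hD hX) (hv0 m)
      · rw [if_neg hD, zero_mul]
        split_ifs
        · linarith
        · linarith
    refine h3.trans ?_
    rw [sum_add_distrib, ← sum_filter, sum_const, nsmul_eq_mul]
    have h4 : (((Ico N (2 * N)).filter (fun m => m ∈ X1)).card : ℝ) ≤ X1.card := by
      have : (Ico N (2 * N)).filter (fun m => m ∈ X1) ⊆ X1 := by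
        intro x hx; exact (mem_filter.1 hx).2
      exact_mod_cast card_le_card this
    have h5 := mul_le_mul_of_nonneg_right h4 (mul_nonneg hΛ hT0)
    linarith
  -- (3)
  have h3 : ∑ m ∈ Ico N (2 * N), v m * g m ≤ ∑ n ∈ Ico (N * (P - s)) (2 * (N * P)), f n * ∑ a ∈ A, v (n / a) := by
    have h4 : ∑ m ∈ Ico N (2 * N), v m * g m = ∑ a ∈ A, ∑ m ∈ Ico N (2 * N), v m * ∑ n ∈ Ico (a * m) (a * (m + 1)), f n := by
      rw [sum_comm]
      apply sum_congr rfl
      intro m _
      rw [hg, mul_sum]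
    have h5 : ∑ n ∈ Ico (N * (P - s)) (2 * (N * P)), f n * ∑ a ∈ A, v (n / a) = ∑ a ∈ A, ∑ n ∈ Ico (N * (P - s)) (2 * (N * P)), v (n / a) * f n := by
      rw [sum_comm]
      apply sum_congr rfl
      intro n _
      rw [mul_sum]
      apply sum_congr rfl
      intro a _
      ring
    rw [h4, h5]
    apply sum_le_sum
    intro a ha
    obtain ⟨ha0, ha1, ha2⟩ := hA a ha
    rw [← sum_fib' a (2 * N) ha0 (Ico N (2 * N)) v f (fun m hm => (mem_Ico.1 hm).2)]
    apply sum_le_sum_of_subset_of_nonneg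
    · intro n hn
      rw [mem_filter, mem_range, mem_Ico] at hn
      rw [mem_Ico]
      obtain ⟨q1, q2, _⟩ := hn
      rw [Nat.le_div_iff_mul_le ha0] at q2
      constructor
      · exact (Nat.mul_le_mul_left N ha1).trans q2
      · refine lt_of_lt_of_le q1 ?_
        rw [mul_assoc]
        exact Nat.mul_le_mul_left 2 (Nat.mul_le_mul_left N ha2)
    · intro n _ _
      exact mul_nonneg (hv0 _) (hf0 _)
  -- (4)
  have hlo : N * (P - s) ≤ N * P := Nat.mul_le_mul_left N (Nat.sub_le P s)
  have h4 : ∑ n ∈ Ico (N * (P - s)) (2 * (N * P)), f n * ∑ a ∈ A, v (n / a) ≤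
      (1 + δ) * A.card * F + A.card * Λ ^ 2 * (N * s + X2.card) := by
    have htr : ∀ n, n < 2 * (N * P) → f n * ∑ a ∈ A, v (n / a) ≤ A.card * Λ ^ 2 := by
      intro n hn
      have h6 : ∑ a ∈ A, v (n / a) ≤ A.card * Λ := by
        rw [← nsmul_eq_mul]
        apply sum_le_card_nsmul
        intro a _
        exact hvΛ _ (lt_of_le_of_lt (Nat.div_le_self n a) hn)
      have h7 := mul_le_mul ((hfl n).trans (hlΛ n hn)) h6 (sum_nonneg fun _ _ => hv0 _) hΛ
      linarith [show Λ * (A.card * Λ) = A.card * Λ ^ 2 by ring]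
    rw [← sum_Ico_consecutive _ hlo (by omega : N * P ≤ 2 * (N * P))]
    have h5 : ∑ n ∈ Ico (N * (P - s)) (N * P), f n * ∑ a ∈ A, v (n / a) ≤ A.card * Λ ^ 2 * (N * s) := by
      have h6 : ∑ n ∈ Ico (N * (P - s)) (N * P), f n * ∑ a ∈ A, v (n / a) ≤ (Ico (N * (P - s)) (N * P)).card • (A.card * Λ ^ 2) := by
        apply sum_le_card_nsmul
        intro n hn
        rw [mem_Ico] at hn
        exact htr n (by omega)
      refine h6.trans (le_of_eq ?_)
      rw [nsmul_eq_mul, Nat.card_Ico]
      have h7 : N * P - N * (P - s) = N * s := by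
        rw [← Nat.mul_sub, Nat.sub_sub_self hs]
      rw [h7]
      push_cast
      ring
    have h6 : ∑ n ∈ Ico (N * P) (2 * (N * P)), f n * ∑ a ∈ A, v (n / a) ≤ (1 + δ) * A.card * F + A.card * Λ ^ 2 * X2.card := by
      have h7 : ∑ n ∈ Ico (N * P) (2 * (N * P)), f n * ∑ a ∈ A, v (n / a) ≤
          ∑ n ∈ Ico (N * P) (2 * (N * P)), (f n * ((1 + δ) * A.card) + if n ∈ X2 then A.card * Λ ^ 2 else 0) := by
        apply sum_le_sum
        intro n hn
        have hn' := mem_Ico.1 hn
        by_cases hX : n ∈ X2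
        · rw [if_pos hX]
          have := htr n hn'.2
          have : 0 ≤ f n * ((1 + δ) * A.card) := mul_nonneg (hf0 n) (by positivity)
          linarith
        · rw [if_neg hX, add_zero]
          exact mul_le_mul_of_nonneg_left (hE2 n hn hX) (hf0 n)
      refine h7.trans ?_
      rw [sum_add_distrib, ← sum_mul, ← sum_filter, sum_const, nsmul_eq_mul]
      have h8 : (((Ico (N * P) (2 * (N * P))).filter (fun m => m ∈ X2)).card : ℝ) ≤ X2.card := by
        have : (Ico (N * P) (2 * (N * P))).filter (fun m => m ∈ X2) ⊆ X2 := by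
          intro x hx; exact (mem_filter.1 hx).2
        exact_mod_cast card_le_card this
      have h9 := mul_le_mul_of_nonneg_right h8 (by positivity : 0 ≤ (A.card : ℝ) * Λ ^ 2)
      have h10 : ∑ n ∈ Ico (N * P) (2 * (N * P)), f n ≤ F := by
        refine le_trans (le_of_eq ?_) hF
        apply sum_congr rfl
        intro n _
        exact hf n
      have h11 := mul_le_mul_of_nonneg_right h10 (by positivity : 0 ≤ (1 + δ) * (A.card : ℝ))
      linarith
    linarith
  linarith

end Pool.Agent.H15.MC
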