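import Pool.Agent.H15.QP.Gm

/-! The count of the products of two primes in a window against the model. -/

set_option autoImplicit false

namespace Pool.Agent.H15.MC
open Finset MeasureTheory Pool.Agent.H15.QP
open Pool.Agent.H376R2.MR (er ch DP FK ge mv smoo_ge_le kern_er_norm kern_er_add kern_er_cont)
open Pool.Agent.H376R2.MR renaming w → tw
open Pool.Agent.Y851.HZ

/-- the conjugate polynomial -/
noncomputable def BP (A : Finset ℕ) (w : ℕ → ℝ) (τ : ℝ) : ℂ := ∑ a ∈ A, (w a : ℂ) * er τ (Real.log a)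

lemma BP_norm (A : Finset ℕ) (w : ℕ → ℝ) (τ : ℝ) : ‖BP A w τ‖ = ‖AP A w τ‖ := by
  have h : BP A w τ = (starRingEnd ℂ) (AP A w τ) := by
    unfold BP AP
    rw [map_sum]
    apply sum_congr rfl
    intro a _
    rw [map_mul, Complex.conj_ofReal]
    congr 1
    unfold Pool.Agent.H376R2.MR.er
    rw [← Complex.exp_conj, map_mul, Complex.conj_I, Complex.conj_ofReal]
    congr 1
    push_cast
    ring
  rw [h]
  exact RCLike.norm_conj _

/-- the products of primes -/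
noncomputable def GP (A : Finset ℕ) (w : ℕ → ℝ) (Y h u : ℝ) : ℝ :=
  ∑ a ∈ A, ∑ p ∈ (Icc 1 (NY Y)).filter Nat.Prime, w a * (Real.log p * g5 (Real.log p - Y) / p) * ind h (Real.log p + Real.log a) u

/-- the model -/
noncomputable def GM (A : Finset ℕ) (w : ℕ → ℝ) (Y : ℝ) (M : ℕ) (h u : ℝ) : ℝ :=
  ∑ a ∈ A, ∑ m ∈ Icc 1 (NY (Y + Real.log M)), w a * (g5 (Real.log m - Real.log M - Y) / m) * ind h (Real.log m - Real.log M + Real.log a) u

/-- the points -/
noncomputable def lQ (M : ℕ) : (ℕ × ℕ) ⊕ (ℕ × ℕ) → ℝ :=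
  Sum.elim (fun q => Real.log q.2 + Real.log q.1) (fun q => Real.log q.2 - Real.log M + Real.log q.1)

lemma FW_eq (A : Finset ℕ) (w : ℕ → ℝ) (Y : ℝ) (M : ℕ) (h u : ℝ) :
    FW (IQ A Y M) (cQ w Y M) (lQ M) h u = GP A w Y h u - GM A w Y M h u := by
  unfold FW IQ GP GM
  rw [sum_disjSum, sum_product, sum_product, sub_eq_add_neg]
  congr 1
  rw [← sum_neg_distrib]
  apply sum_congr rfl
  intro a _
  rw [← sum_neg_distrib]
  apply sum_congr rfl
  intro m _
  unfold cQ lQ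
  simp only [Sum.elim_inr]
  ring

lemma poly_eq (A : Finset ℕ) (w : ℕ → ℝ) (Y : ℝ) (M : ℕ) (τ : ℝ) :
    ∑ i ∈ IQ A Y M, (cQ w Y M i : ℂ) * er τ (lQ M i) = BP A w τ * DD Y M τ := by
  unfold IQ BP DD PQ MD
  rw [sum_disjSum, mul_sub, sum_mul_sum, sum_mul_sum, sum_product, sum_product, sub_eq_add_neg, ← sum_neg_distrib]
  congr 1
  · apply sum_congr rfl
    intro a _
    apply sum_congr rfl
    intro p _
    unfold cQ lQ
    simp only [Sum.elim_inl]
    rw [kern_er_add]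
    push_cast
    ring
  · apply sum_congr rfl
    intro a _
    rw [← sum_neg_distrib]
    apply sum_congr rfl
    intro m _
    unfold cQ lQ
    simp only [Sum.elim_inr]
    rw [kern_er_add]
    push_cast
    ring

/-- outside a small set of `u` the products of primes follow the model -/
theorem cheb (B : ℕ) : ∃ (Ce : ℕ) (Y₀ : ℝ), ∀ (Y P h : ℝ) (M : ℕ) (A : Finset ℕ) (w : ℕ → ℝ), Y₀ ≤ Y → Y ^ Ce ≤ P → P ≤ Real.exp Y →
    (∀ a ∈ A, a.Prime ∧ (a : ℝ) ≤ P) → (∀ a ∈ A, |w a| ≤ 1) → P / Y ^ B ≤ A.card → 1 ≤ M → Real.exp (-Y) / Y ^ B ≤ h → h ≤ 1 →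
    volume {u : ℝ | A.card * h / Y ^ B ≤ |GP A w Y h u - GM A w Y M h u|} ≤ ENNReal.ofReal (1 / Y ^ B) := by
  obtain ⟨Ce, Y₀, hv⟩ := variance (3 * B)
  refine ⟨Ce, max Y₀ 1, ?_⟩
  intro Y P h M A w hY hCe hPe hA hw hcard hM hh hh1
  have hY0 : Y₀ ≤ Y := (le_max_left _ _).trans hY
  have hY1 : 1 ≤ Y := (le_max_right _ _).trans hY
  have hYp : 0 < Y := by linarith
  have hP : 0 < P := lt_of_lt_of_le (by positivity) hCe
  have hpow : Y ^ B ≤ Y ^ (3 * B) := pow_le_pow_right₀ hY1 (by omega)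
  have hcard' : P / Y ^ (3 * B) ≤ A.card := (div_le_div_of_nonneg_left hP.le (by positivity) hpow).trans hcard
  have hh' : Real.exp (-Y) / Y ^ (3 * B) ≤ h := (div_le_div_of_nonneg_left (Real.exp_pos _).le (by positivity) hpow).trans hh
  have hhp : 0 < h := lt_of_lt_of_le (by positivity) hh
  have hAp : (0 : ℝ) < A.card := lt_of_lt_of_le (by positivity) hcard
  have h1 := hv Y P h M A w hY0 hCe hPe hA hw hcard' hM hh' hh1
  have h2 := FW_cheb (IQ A Y M) (cQ w Y M) (lQ M) h (A.card * h / Y ^ B) (h * ((A.card : ℝ) ^ 2 * (h / Y ^ (3 * B)))) hhp (by positivity)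
    (by
      apply mul_le_mul_of_nonneg_left _ hhp.le
      have h3 : (fun ξ => kap ξ * ‖∑ i ∈ IQ A Y M, (cQ w Y M i : ℂ) * er (2 * Real.pi * ξ / h) (lQ M i)‖ ^ 2) =
          fun ξ => kap ξ * ‖AP A w (2 * Real.pi * ξ / h) * DD Y M (2 * Real.pi * ξ / h)‖ ^ 2 := by
        funext ξ
        rw [poly_eq, norm_mul, norm_mul, BP_norm]
      rw [h3]
      exact h1)
  have h4 : {u : ℝ | A.card * h / Y ^ B ≤ |GP A w Y h u - GM A w Y M h u|} = {u : ℝ | A.card * h / Y ^ B ≤ |FW (IQ A Y M) (cQ w Y M) (lQ M) h u|} := by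
    ext u
    simp only [Set.mem_ofPred_eq, FW_eq]
  rw [h4]
  refine h2.trans (ENNReal.ofReal_le_ofReal (le_of_eq ?_))
  have h5 : Y ^ (3 * B) = Y ^ B * (Y ^ B * Y ^ B) := by rw [← pow_add, ← pow_add]; congr 1; ring
  rw [h5]
  field_simp

/-- the clean count -/
noncomputable def GQ (A : Finset ℕ) (w : ℕ → ℝ) (h u : ℝ) : ℝ :=
  ∑ a ∈ A, w a * ∑ p ∈ (Ioc ⌊Real.exp (u - Real.log a)⌋₊ ⌊Real.exp (u - Real.log a) * Real.exp h⌋₊).filter Nat.Prime, Real.log p / p

lemma GP_GQ (A : Finset ℕ) (w : ℕ → ℝ) (Y h u : ℝ) (hh : 0 ≤ h)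
    (hu : ∀ a ∈ A, -2 ≤ u - Real.log a - Y ∧ u - Real.log a + h - Y ≤ 2) : GP A w Y h u = GQ A w h u := by
  unfold GP GQ
  apply sum_congr rfl
  intro a ha
  obtain ⟨h1, h2⟩ := hu a ha
  have := sum_win Y h u (-Real.log a) 0 Nat.Prime (fun p => Real.log p / p) hh (by rw [add_zero]; linarith) (by rw [add_zero]; linarith)
  rw [← sub_eq_add_neg] at this
  rw [← this, mul_sum]
  simp only [add_zero, sub_zero, sub_neg_eq_add]
  apply sum_congr rfl
  intro p _
  ring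

lemma GM_ev (A : Finset ℕ) (w : ℕ → ℝ) (Y h u V : ℝ) (M : ℕ) (hh : 0 ≤ h) (hw : ∀ a ∈ A, 0 ≤ w a) (hM : 1 ≤ M)
    (hu : ∀ a ∈ A, -2 ≤ u - Real.log a - Y ∧ u - Real.log a + h - Y ≤ 2) (hV : 2 ≤ V)
    (hV' : ∀ a ∈ A, V ≤ Real.exp (u - Real.log a) * M) :
    |GM A w Y M h u - (∑ a ∈ A, w a) * h| ≤ (∑ a ∈ A, w a) * (2 / V) := by
  unfold GM
  rw [sum_mul, ← sum_sub_distrib, sum_mul]
  refine (abs_sum_le_sum_abs _ _).trans (sum_le_sum ?_)
  intro a ha
  obtain ⟨h1, h2⟩ := hu a ha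
  have hMp : (0 : ℝ) < M := by exact_mod_cast hM
  have key := sum_win Y h u (Real.log M - Real.log a) (Real.log M) (fun _ => True) (fun m => 1 / (m : ℝ)) hh (by linarith) (by linarith)
  have hXe : Real.exp (u + (Real.log M - Real.log a)) = Real.exp (u - Real.log a) * M := by
    rw [show u + (Real.log M - Real.log a) = (u - Real.log a) + Real.log M by ring, Real.exp_add (u - Real.log a), Real.exp_log hMp]
  rw [hXe] at key
  simp only [filter_true] at key
  have h3 : ∑ m ∈ Icc 1 (NY (Y + Real.log M)), w a * (g5 (Real.log m - Real.log M - Y) / m) * ind h (Real.log m - Real.log M + Real.log a) u =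
      w a * ∑ m ∈ Ioc ⌊Real.exp (u - Real.log a) * M⌋₊ ⌊Real.exp (u - Real.log a) * M * Real.exp h⌋₊, (1 : ℝ) / m := by
    rw [← key, mul_sum]
    apply sum_congr rfl
    intro m _
    rw [show Real.log m - (Real.log M - Real.log a) = Real.log m - Real.log M + Real.log a by ring]
    ring
  rw [h3, ← mul_sub, abs_mul, abs_of_nonneg (hw a ha)]
  apply mul_le_mul_of_nonneg_left _ (hw a ha)
  have h4 := hV' a ha
  refine (harm_win _ h (hV.trans h4) hh).trans ?_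
  have : 0 < V := by linarith
  gcongr

lemma GQ_mono (A : Finset ℕ) (w : ℕ → ℝ) (u : ℝ) (hw : ∀ a ∈ A, 0 ≤ w a) {h h' : ℝ} (hh : h ≤ h') : GQ A w h u ≤ GQ A w h' u := by
  unfold GQ
  apply sum_le_sum
  intro a ha
  apply mul_le_mul_of_nonneg_left _ (hw a ha)
  apply sum_le_sum_of_subset_of_nonneg
  · apply filter_subset_filter
    apply Ioc_subset_Ioc_right
    apply Nat.floor_le_floor
    exact mul_le_mul_of_nonneg_left (Real.exp_le_exp.2 hh) (Real.exp_pos _).le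
  · intro p hp _
    rw [mem_filter] at hp
    have : (1 : ℝ) ≤ p := by exact_mod_cast hp.2.one_lt.le
    exact div_nonneg (Real.log_nonneg this) (by linarith)

end Pool.Agent.H15.MC
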