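import Pool.Agent.H15.JD.Ci

/-! Short intervals with many primes. -/

set_option autoImplicit false

namespace Pool.Agent.H15.MC
open Finset Filter Asymptotics
open Pool.Agent.H15.FD (theta_diff_le)

lemma theta_four : ∃ Q₀ : ℝ, ∀ Q : ℕ, Q₀ ≤ Q → (Q : ℝ) ≤ Chebyshev.theta ((4 * Q : ℕ) : ℝ) - Chebyshev.theta Q := by
  have h1 : ∀ᶠ x : ℝ in atTop, Real.log (4 * x + 1) + 2 * √(4 * x) * Real.log (4 * x) ≤ (1 / 4) * x := by
    have h2 := (isLittleO_log_rpow_atTop (r := 1 / 2) (by norm_num)).bound (show (0 : ℝ) < 1 / 100 by norm_num)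
    have h3 : Tendsto (fun x : ℝ => 4 * x + 1) atTop atTop := by
      apply Filter.tendsto_atTop_add_const_right
      exact tendsto_id.const_mul_atTop (by norm_num)
    filter_upwards [h3.eventually h2, eventually_ge_atTop (100 : ℝ)] with x hx hx1
    rw [Real.norm_eq_abs, Real.norm_eq_abs, abs_of_nonneg (Real.log_nonneg (by linarith)), abs_of_nonneg (by positivity),
      ← Real.sqrt_eq_rpow] at hx
    have h4 : √(4 * x) ≤ √(4 * x + 1) := Real.sqrt_le_sqrt (by linarith)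
    have h5 : Real.log (4 * x) ≤ Real.log (4 * x + 1) := Real.log_le_log (by linarith) (by linarith)
    have h6 : √(4 * x + 1) * √(4 * x + 1) = 4 * x + 1 := Real.mul_self_sqrt (by linarith)
    have h7 : 0 ≤ √(4 * x) := Real.sqrt_nonneg _
    have h8 : 1 ≤ √(4 * x + 1) := by rw [Real.one_le_sqrt]; linarith
    have h9 : √(4 * x) * Real.log (4 * x) ≤ √(4 * x + 1) * (1 / 100 * √(4 * x + 1)) :=
      mul_le_mul h4 (h5.trans hx) (Real.log_nonneg (by linarith)) (by linarith)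
    nlinarith only [h9, h6, hx, h8, hx1]
  obtain ⟨Q₀, hQ₀⟩ := eventually_atTop.1 h1
  refine ⟨max Q₀ 1, ?_⟩
  intro Q hQ
  have h2 := hQ₀ Q ((le_max_left _ _).trans hQ)
  have hQ1 : (1 : ℝ) ≤ Q := (le_max_right _ _).trans hQ
  have h3 := Chebyshev.theta_ge (4 * Q)
  have h4 := Chebyshev.theta_le_log4_mul_x (x := (Q : ℝ)) (by linarith)
  have h5 : Real.log 4 = 2 * Real.log 2 := by
    rw [show (4 : ℝ) = 2 ^ 2 by norm_num, Real.log_pow]; push_cast; ring
  have h6 := Real.log_two_gt_d9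
  rw [h5] at h4
  push_cast at h3 ⊢
  nlinarith only [h2, h3, h4, h6, hQ1]

/-- a short interval with many primes -/
lemma mult : ∃ Q₀ : ℝ, ∀ K s : ℕ, 1 ≤ K → 1 ≤ s → Q₀ ≤ (K * s : ℕ) → ∃ P : ℕ, K * s < P ∧ P ≤ 4 * (K * s) ∧ s ≤ P ∧
    (s : ℝ) / 3 ≤ ((Ioc (P - s) P).filter Nat.Prime).card * Real.log (4 * (K * s : ℕ)) := by
  obtain ⟨Q₀, hQ₀⟩ := theta_four
  refine ⟨max Q₀ 1, ?_⟩
  intro K s hK hs hQ
  have h1 := hQ₀ (K * s) ((le_max_left _ _).trans hQ)
  have h2 : Chebyshev.theta ((4 * (K * s) : ℕ) : ℝ) - Chebyshev.theta ((K * s : ℕ) : ℝ) =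
      ∑ i ∈ range (3 * K), (Chebyshev.theta ((K * s + (i + 1) * s : ℕ) : ℝ) - Chebyshev.theta ((K * s + i * s : ℕ) : ℝ)) := by
    rw [Finset.sum_range_sub (fun i => Chebyshev.theta ((K * s + i * s : ℕ) : ℝ))]
    congr 3
    · ring
    · ring
  rw [h2] at h1
  have h3 : ∃ i ∈ range (3 * K), (s : ℝ) / 3 ≤ Chebyshev.theta ((K * s + (i + 1) * s : ℕ) : ℝ) - Chebyshev.theta ((K * s + i * s : ℕ) : ℝ) := by
    by_contra hcon
    push Not at hcon
    have h4 := sum_lt_sum_of_nonempty (s := range (3 * K)) ⟨0, by rw [mem_range]; omega⟩ hcon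
    rw [sum_const, card_range, nsmul_eq_mul] at h4
    push_cast at h4 h1
    have h5 : 3 * (K : ℝ) * (s / 3) = K * s := by ring
    linarith
  obtain ⟨i, hi, h4⟩ := h3
  rw [mem_range] at hi
  have hle : K * s + (i + 1) * s ≤ 4 * (K * s) := by
    have h5 : (i + 1) * s ≤ (3 * K) * s := Nat.mul_le_mul_right s (by omega)
    have h6 : (3 * K) * s = 3 * (K * s) := by ring
    omega
  have h7 : s ≤ (i + 1) * s := Nat.le_mul_of_pos_left s (by omega)
  refine ⟨K * s + (i + 1) * s, by omega, hle, by omega, ?_⟩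
  refine h4.trans ?_
  have h5 : K * s + (i + 1) * s - s = K * s + i * s := by
    rw [add_mul, one_mul]; omega
  rw [h5]
  have h6 := theta_diff_le ((K * s + i * s : ℕ) : ℝ) ((K * s + (i + 1) * s : ℕ) : ℝ) (Nat.cast_nonneg _)
    (by exact_mod_cast (by rw [add_mul]; omega : K * s + i * s ≤ K * s + (i + 1) * s)) (4 * (K * s : ℕ))
    (by exact_mod_cast hle)
  rw [Nat.floor_natCast, Nat.floor_natCast] at h6
  exact h6

end Pool.Agent.H15.MC
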