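import Pool.Agent.H15.MC.Qm
import Pool.Agent.H15.MC.Co
import Pool.Agent.H15.MC.Mu
import Pool.Agent.H15.MC.Al

/-! Almost every integer has the expected number of children. -/

set_option autoImplicit false

namespace Pool.Agent.H15.MC
open Finset Filter
open Pool.Agent.H15.JD (lp lp_nonneg lp_le Th1 Th1_nat mean_pts)

lemma forward (B D : ℕ) (hD : 1 ≤ D) : ∃ (C : ℕ) (N₀ : ℝ), ∀ (N P : ℕ) (A : Finset ℕ), N₀ ≤ N → Real.log N ^ C ≤ P → P ≤ N →
    (∀ a ∈ A, a.Prime ∧ (P : ℝ) / 2 < a ∧ (a : ℝ) ≤ P) → (P : ℝ) / Real.log N ^ D ≤ A.card →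
    ∃ X : Finset ℕ, (X.card : ℝ) ≤ N / Real.log N ^ B ∧ ∀ m ∈ Ico N (2 * N), m ∉ X →
      (1 - 1 / Real.log N ^ B) * ∑ a ∈ A, (a : ℝ) ≤ ∑ a ∈ A, ∑ n ∈ Ico (a * m) (a * (m + 1)), lp n := by
  classical
  obtain ⟨C, N₁, hR⟩ := mean_pts D B
  have hev : ∀ᶠ N : ℝ in atTop, N₁ ≤ N ∧ 1 ≤ Real.log N ∧ 2 ≤ N ∧ Real.log N ^ C ≤ N := by
    have h2 := (Real.isLittleO_pow_log_id_atTop (n := C)).bound (show (0 : ℝ) < 1 by norm_num)
    refine (eventually_ge_atTop _).and ((Real.tendsto_log_atTop.eventually_ge_atTop _).and ((eventually_ge_atTop _).and ?_))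
    filter_upwards [h2, Real.tendsto_log_atTop.eventually_ge_atTop 1, eventually_ge_atTop (1 : ℝ)] with N h3 h4 h5
    rw [Real.norm_eq_abs, Real.norm_eq_abs, one_mul, id, abs_of_nonneg (by positivity), abs_of_nonneg (by linarith)] at h3
    exact h3
  obtain ⟨N₀, hN₀⟩ := eventually_atTop.1 hev
  refine ⟨C, N₀, ?_⟩
  intro N P A hN hCP hPN hA hcard
  obtain ⟨hE1, hE2, hE3, hE4⟩ := hN₀ N hN
  have hL0 : 0 < Real.log N := by linarith
  have hP1 : 1 ≤ (P : ℝ) := (one_le_pow₀ hE2).trans hCP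
  have hPN' : (P : ℝ) ≤ (N : ℝ) ^ D := by
    have h1 : (P : ℝ) ≤ N := by exact_mod_cast hPN
    exact h1.trans (le_self_pow₀ (by linarith) (by omega))
  have hLC : 0 < Real.log N ^ C := by positivity
  have hLD : 1 ≤ Real.log N ^ D := one_le_pow₀ hE2
  obtain ⟨T, hT⟩ : ∃ T : ℝ, T = ∑ a ∈ A, (a : ℝ) := ⟨_, rfl⟩
  have h1 := hR N P 1 1 0 A ((Ico N (2 * N)).map Nat.castEmbedding) hE1 hCP hPN' hA hcard
    (by
      rw [div_le_one (by positivity)]
      nlinarith only [hP1, hLD]) le_rfl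
    (by
      intro x hx
      rw [Finset.mem_map] at hx
      obtain ⟨m, hm, rfl⟩ := hx
      rw [mem_Ico] at hm
      simp only [Nat.castEmbedding_apply]
      constructor
      · exact_mod_cast hm.1
      · exact_mod_cast hm.2.le)
    (by
      intro x hx x' hx' hne
      rw [Finset.mem_map] at hx hx'
      obtain ⟨m, hm, rfl⟩ := hx
      obtain ⟨m', hm', rfl⟩ := hx'
      simp only [Nat.castEmbedding_apply] at hne ⊢
      have h1 : (m : ℤ) ≠ m' := by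
        intro h
        apply hne
        have : m = m' := by exact_mod_cast h
        rw [this]
      have h2 : (1 : ℤ) ≤ |(m : ℤ) - m'| := Int.one_le_abs (sub_ne_zero.2 h1)
      exact_mod_cast h2) le_rfl (Nat.cast_nonneg N) le_rfl
    (by
      rw [one_le_div hLC]
      exact hE4)
  rw [← hT, div_one, one_mul] at h1
  rw [← hT]
  refine ⟨(Ico N (2 * N)).filter (fun m : ℕ => T / Real.log N ^ B < |∑ a ∈ A, Th1 a ((m : ℝ) + 0) 1 - T|), ?_, ?_⟩
  · refine le_trans ?_ h1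
    have h2 : ((Ico N (2 * N)).filter (fun m : ℕ => T / Real.log N ^ B < |∑ a ∈ A, Th1 a ((m : ℝ) + 0) 1 - T|)).map Nat.castEmbedding ⊆
        ((Ico N (2 * N)).map Nat.castEmbedding).filter (fun x : ℝ => T / Real.log N ^ B < |∑ a ∈ A, Th1 a (x + 0) 1 - T|) := by
      intro x hx
      rw [Finset.mem_map] at hx
      obtain ⟨m, hm, rfl⟩ := hx
      rw [mem_filter] at hm
      rw [mem_filter, Finset.mem_map]
      exact ⟨⟨m, hm.1, rfl⟩, hm.2⟩
    have h3 := card_le_card h2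
    rw [card_map] at h3
    exact_mod_cast h3
  · intro m hm hmX
    rw [mem_filter, not_and] at hmX
    have h2 := not_lt.1 (hmX hm)
    rw [mem_Ico] at hm
    rw [abs_le] at h2
    have h3 : ∑ a ∈ A, Th1 a ((m : ℝ) + 0) 1 = ∑ a ∈ A, ∑ n ∈ Ico (a * m) (a * (m + 1)), lp n := by
      apply sum_congr rfl
      intro a ha
      rw [add_zero, Th1_nat a m (hA a ha).1.two_le (by
        have : 2 ≤ N := by exact_mod_cast hE3
        omega)]
    rw [h3] at h2
    have h4 : T / Real.log N ^ B = 1 / Real.log N ^ B * T := by ring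
    rw [h4] at h2
    linarith [h2.1]

/-- the multipliers -/
lemma mults (B C' : ℕ) (hC' : 1 ≤ C') : ∃ N₀ : ℝ, ∀ N : ℕ, N₀ ≤ N → ∃ (P s : ℕ) (A : Finset ℕ), s ≤ P ∧ P ≤ N ∧
    Real.log N ^ (C' + B + 1) ≤ P ∧ (P : ℝ) ≤ Real.log N ^ (C' + B + 2) ∧
    (∀ a ∈ A, a.Prime ∧ P - s ≤ a ∧ a ≤ P) ∧ (s : ℝ) ≤ P * (1 / Real.log N ^ (B + 1)) ∧
    (P : ℝ) / Real.log N ^ (B + 3) ≤ A.card := by
  classical
  obtain ⟨Q₀, hM⟩ := mult
  have hev : ∀ᶠ N : ℝ in atTop, Q₀ ≤ Real.log N ∧ 100 ≤ Real.log N ∧ 4 ≤ N ∧ Real.log N ^ (C' + B + 2) ≤ N := by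
    have h2 := (Real.isLittleO_pow_log_id_atTop (n := C' + B + 2)).bound (show (0 : ℝ) < 1 by norm_num)
    refine (Real.tendsto_log_atTop.eventually_ge_atTop _).and ((Real.tendsto_log_atTop.eventually_ge_atTop _).and
      ((eventually_ge_atTop _).and ?_))
    filter_upwards [h2, Real.tendsto_log_atTop.eventually_ge_atTop 1, eventually_ge_atTop (1 : ℝ)] with N h3 h4 h5
    rw [Real.norm_eq_abs, Real.norm_eq_abs, one_mul, id, abs_of_nonneg (by positivity), abs_of_nonneg (by linarith)] at h3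
    exact h3
  obtain ⟨N₀, hN₀⟩ := eventually_atTop.1 hev
  refine ⟨N₀, ?_⟩
  intro N hN
  obtain ⟨hE1, hE2, hE3, hE4⟩ := hN₀ N hN
  obtain ⟨L, hL⟩ : ∃ L : ℝ, L = Real.log N := ⟨_, rfl⟩
  rw [← hL] at hE1 hE2 hE4 ⊢
  have hL0 : 0 < L := by linarith
  have hL1 : 1 ≤ L := by linarith
  obtain ⟨K, hK⟩ : ∃ K : ℕ, K = ⌈L ^ (B + 1)⌉₊ := ⟨_, rfl⟩
  obtain ⟨s, hs⟩ : ∃ s : ℕ, s = ⌈L ^ C'⌉₊ := ⟨_, rfl⟩
  have hLB : 1 ≤ L ^ (B + 1) := one_le_pow₀ hL1
  have hLC : 1 ≤ L ^ C' := one_le_pow₀ hL1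
  have hK1 : L ^ (B + 1) ≤ K := by rw [hK]; exact Nat.le_ceil _
  have hK2 : (K : ℝ) ≤ 2 * L ^ (B + 1) := by
    have : (K : ℝ) < L ^ (B + 1) + 1 := by rw [hK]; exact Nat.ceil_lt_add_one (by positivity)
    linarith
  have hs1 : L ^ C' ≤ s := by rw [hs]; exact Nat.le_ceil _
  have hs2 : (s : ℝ) ≤ 2 * L ^ C' := by
    have : (s : ℝ) < L ^ C' + 1 := by rw [hs]; exact Nat.ceil_lt_add_one (by positivity)
    linarith
  have hK0 : 1 ≤ K := by
    have : (1 : ℝ) ≤ K := hLB.trans hK1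
    exact_mod_cast this
  have hs0 : 1 ≤ s := by
    have : (1 : ℝ) ≤ s := hLC.trans hs1
    exact_mod_cast this
  have hKr : (0 : ℝ) < K := by exact_mod_cast hK0
  have hsr : (0 : ℝ) < s := by exact_mod_cast hs0
  have hLs : L ≤ s := le_trans (le_self_pow₀ hL1 (by omega)) hs1
  have hKs : L ≤ ((K * s : ℕ) : ℝ) := by
    push_cast
    have h1 : (1 : ℝ) ≤ K := by exact_mod_cast hK0
    nlinarith only [h1, hLs, hL0]
  obtain ⟨P, hP1, hP2, hP3, hP4⟩ := hM K s hK0 hs0 (hE1.trans hKs)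
  have hP1r : (K : ℝ) * s < P := by exact_mod_cast hP1
  have hP2r : (P : ℝ) ≤ 4 * (K * s) := by exact_mod_cast hP2
  have hPup : (P : ℝ) ≤ L ^ (C' + B + 2) := by
    have h1 : (K : ℝ) * s ≤ (2 * L ^ (B + 1)) * (2 * L ^ C') := mul_le_mul hK2 hs2 hsr.le (by positivity)
    have h2 : L ^ (C' + B + 2) = (L ^ (B + 1) * L ^ C') * L := by rw [← pow_add, ← pow_succ]; congr 1; ring
    rw [h2]
    have h3 : 0 < L ^ (B + 1) * L ^ C' := by positivity
    have h4 := mul_le_mul_of_nonneg_left hE2 h3.le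
    linarith
  have hPN : P ≤ N := by
    have : (P : ℝ) ≤ N := hPup.trans hE4
    exact_mod_cast this
  refine ⟨P, s, (Ioc (P - s) P).filter Nat.Prime, hP3, hPN, ?_, hPup, ?_, ?_, ?_⟩
  · have h1 : L ^ (C' + B + 1) = L ^ (B + 1) * L ^ C' := by rw [← pow_add]; congr 1; ring
    rw [h1]
    have := mul_le_mul hK1 hs1 (by positivity) hKr.le
    linarith
  · intro a ha
    rw [mem_filter, mem_Ioc] at ha
    exact ⟨ha.2, by omega, ha.1.2⟩
  · rw [mul_one_div, le_div_iff₀ (by positivity)]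
    have := mul_le_mul_of_nonneg_left hK1 hsr.le
    linarith
  · have h1 : Real.log (4 * (K * s : ℕ)) ≤ 2 * L := by
      have h2 : (4 * ((K * s : ℕ) : ℝ)) ≤ (N : ℝ) ^ 2 := by
        have h3 : ((K * s : ℕ) : ℝ) ≤ N := by
          have : K * s ≤ N := by omega
          exact_mod_cast this
        nlinarith only [h3, hE3]
      have h3 : (0 : ℝ) < 4 * ((K * s : ℕ) : ℝ) := by push_cast; positivity
      refine (Real.log_le_log h3 h2).trans (le_of_eq ?_)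
      rw [Real.log_pow, ← hL]
      push_cast
      ring
    have h2 : (s : ℝ) / 3 ≤ ((Ioc (P - s) P).filter Nat.Prime).card * (2 * L) :=
      hP4.trans (mul_le_mul_of_nonneg_left h1 (Nat.cast_nonneg _))
    rw [div_le_iff₀ (by positivity)]
    have h3 : L ^ (B + 3) = L ^ (B + 1) * (L * L) := by rw [show B + 3 = B + 1 + 2 by ring, pow_add]; ring
    rw [h3]
    have h4 : (P : ℝ) ≤ 8 * L ^ (B + 1) * s := by
      have := mul_le_mul_of_nonneg_right hK2 hsr.le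
      linarith
    have h5 : (s : ℝ) ≤ ((Ioc (P - s) P).filter Nat.Prime).card * (6 * L) := by linarith
    have h6 : 8 * L ^ (B + 1) * s ≤ 8 * L ^ (B + 1) * (((Ioc (P - s) P).filter Nat.Prime).card * (6 * L)) :=
      mul_le_mul_of_nonneg_left h5 (by positivity)
    have h7 : 8 * L ^ (B + 1) * (((Ioc (P - s) P).filter Nat.Prime).card * (6 * L)) =
        (((Ioc (P - s) P).filter Nat.Prime).card * (L ^ (B + 1) * L)) * 48 := by ring
    have h8 : (((Ioc (P - s) P).filter Nat.Prime).card * (L ^ (B + 1) * L)) * 48 ≤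
        (((Ioc (P - s) P).filter Nat.Prime).card * (L ^ (B + 1) * L)) * L :=
      mul_le_mul_of_nonneg_left (by linarith) (by positivity)
    linarith

end Pool.Agent.H15.MC
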