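import Pool.Agent.H15.MC.Mi

/-! The growth of the chains: `q_k ≤ exp (K k log k)`. -/

set_option autoImplicit false

namespace Pool.Agent.H15.MC
open Finset Filter

lemma growth (x : ℕ → ℝ) (C : ℕ) (hx1 : ∀ k, 1 ≤ x k) (hx : ∀ k, x (k + 1) ≤ x k + Real.log 2 + C * Real.log (x k)) :
    ∃ K : ℝ, ∀ k : ℕ, 2 ≤ k → x k ≤ K * k * Real.log k := by
  have hev : ∀ᶠ K : ℝ in atTop, C * Real.log K + 2 * C + 1 ≤ K ∧ 1 ≤ K ∧ x 0 ≤ K := by
    have h2 := (Real.isLittleO_log_id_atTop).bound (show (0 : ℝ) < 1 / (2 * (C + 1)) by positivity)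
    filter_upwards [h2, eventually_ge_atTop (1 : ℝ), eventually_ge_atTop (4 * (C : ℝ) + 2), eventually_ge_atTop (x 0)] with K h3 h4 h5 h6
    rw [Real.norm_eq_abs, Real.norm_eq_abs, id, abs_of_nonneg (Real.log_nonneg h4), abs_of_nonneg (by linarith)] at h3
    refine ⟨?_, h4, h6⟩
    have h7 : (C : ℝ) * Real.log K ≤ C * (1 / (2 * (C + 1)) * K) := mul_le_mul_of_nonneg_left h3 (Nat.cast_nonneg C)
    have h8 : (C : ℝ) * (1 / (2 * (C + 1)) * K) ≤ K / 2 := by
      have h9 : (C : ℝ) * (1 / (2 * (C + 1)) * K) = (C / (C + 1)) * (K / 2) := by field_simp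
      rw [h9]
      have h10 : (C : ℝ) / (C + 1) ≤ 1 := by rw [div_le_one (by positivity)]; linarith
      have h11 : 0 ≤ K / 2 := by linarith
      nlinarith only [h10, h11]
    linarith
  obtain ⟨K, hK1, hK2, hK3⟩ := hev.exists
  have hlog3 : (1 : ℝ) ≤ Real.log 3 := by
    rw [Real.le_log_iff_exp_le (by norm_num)]
    have := Real.exp_one_lt_d9
    linarith
  have hlog2 := Real.log_two_lt_d9
  have hlog2' := Real.log_two_gt_d9
  have hlogK : 0 ≤ Real.log K := Real.log_nonneg hK2
  have hmain : ∀ k : ℕ, x k ≤ K * ((k : ℝ) + 2) * Real.log (k + 2) := by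
    intro k
    induction k with
    | zero =>
      push_cast
      rw [zero_add]
      nlinarith only [hK3, hK2, hlog2']
    | succ k ih =>
      have hk : (0 : ℝ) ≤ k := Nat.cast_nonneg k
      have hl2 : 0 < Real.log (k + 2) := Real.log_pos (by linarith)
      have hl23 : Real.log (k + 2) ≤ Real.log (k + 3) := Real.log_le_log (by linarith) (by linarith)
      have hl3 : 1 ≤ Real.log (k + 3) := hlog3.trans (Real.log_le_log (by norm_num) (by linarith))
      have h1 : Real.log (x k) ≤ Real.log K + 2 * Real.log (k + 2) := by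
        have h2 : x k ≤ K * ((k + 2) * (k + 2)) := by
          refine ih.trans ?_
          rw [mul_assoc]
          apply mul_le_mul_of_nonneg_left _ (by linarith)
          apply mul_le_mul_of_nonneg_left _ (by linarith)
          have := Real.log_le_sub_one_of_pos (show (0 : ℝ) < k + 2 by linarith)
          linarith
        refine (Real.log_le_log (by linarith [hx1 k]) h2).trans (le_of_eq ?_)
        rw [Real.log_mul (by linarith) (by positivity), Real.log_mul (by linarith) (by linarith)]
        ring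
      have h2 := mul_le_mul_of_nonneg_left h1 (Nat.cast_nonneg C : (0 : ℝ) ≤ C)
      have h3 := hx k
      have h4 : Real.log 2 + C * (Real.log K + 2 * Real.log (k + 2)) ≤ K * Real.log (k + 3) := by
        have h5 : Real.log 2 + C * (Real.log K + 2 * Real.log (k + 2)) ≤ (C * Real.log K + 2 * C + 1) * Real.log (k + 3) := by
          have h6 : (C : ℝ) * Real.log K ≤ C * Real.log K * Real.log (k + 3) :=
            le_mul_of_one_le_right (mul_nonneg (Nat.cast_nonneg C) hlogK) hl3
          have h7 : (C : ℝ) * (2 * Real.log (k + 2)) ≤ 2 * C * Real.log (k + 3) := by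
            have := mul_le_mul_of_nonneg_left hl23 (Nat.cast_nonneg C : (0 : ℝ) ≤ C)
            linarith
          linarith
        refine h5.trans ?_
        exact mul_le_mul_of_nonneg_right hK1 (by linarith)
      have h5 : K * (((k : ℝ) + 2) * Real.log (k + 2)) + K * Real.log (k + 3) ≤ K * ((k + 3) * Real.log (k + 3)) := by
        have h6 : ((k : ℝ) + 2) * Real.log (k + 2) ≤ (k + 2) * Real.log (k + 3) := mul_le_mul_of_nonneg_left hl23 (by linarith)
        have h7 := mul_le_mul_of_nonneg_left h6 (by linarith : 0 ≤ K)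
        linarith
      push_cast
      rw [show (k : ℝ) + 1 + 2 = k + 3 by ring]
      linarith
  refine ⟨4 * K, ?_⟩
  intro k hk
  have hk' : (2 : ℝ) ≤ k := by exact_mod_cast hk
  refine (hmain k).trans ?_
  have hl : 0 < Real.log k := Real.log_pos (by linarith)
  have h1 : Real.log (k + 2) ≤ 2 * Real.log k := by
    have h2 : (k : ℝ) + 2 ≤ k ^ 2 := by nlinarith only [hk']
    refine (Real.log_le_log (by linarith) h2).trans (le_of_eq ?_)
    rw [Real.log_pow]
    push_cast
    ring
  have h2 : ((k : ℝ) + 2) * Real.log (k + 2) ≤ (2 * k) * (2 * Real.log k) :=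
    mul_le_mul (by linarith) h1 (Real.log_nonneg (by linarith)) (by linarith)
  have h3 := mul_le_mul_of_nonneg_left h2 (by linarith : 0 ≤ K)
  linarith

/-- **Sequences of primes with small residues which grow like `exp (k log k)`.** -/
theorem small_residues (B : ℕ) : ∃ (C : ℕ) (N₀ : ℝ), ∀ N : ℕ, N₀ ≤ N → ∃ X : Finset ℕ, (X.card : ℝ) ≤ N / Real.log N ^ B ∧
    ∀ m : ℕ, N ≤ m → m < 2 * N → m ∉ X → ∃ q : ℕ → ℕ, q 0 = m ∧ StrictMono q ∧ (∀ i, 1 ≤ i → (q i).Prime) ∧
      (∀ i, 1 ≤ q (i + 1) % q i ∧ ((q (i + 1) % q i : ℕ) : ℝ) ≤ Real.log (q i) ^ C) ∧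
      ∃ K : ℝ, ∀ k : ℕ, 2 ≤ k → (q k : ℝ) ≤ Real.exp (K * k * Real.log k) := by
  classical
  obtain ⟨C, N₀, h⟩ := masses (B + 1) (by omega)
  refine ⟨C, max N₀ 3, ?_⟩
  intro N hN
  have hE3 : (3 : ℝ) ≤ N := (le_max_right _ _).trans hN
  have hE2 : 1 ≤ Real.log N := by
    rw [Real.le_log_iff_exp_le (by linarith)]
    have := Real.exp_one_lt_d9
    linarith
  have h' := h (max N₀ 3) (le_max_left _ _) ∅ (by
    intro M hM
    have : 0 ≤ Real.log M := Real.log_natCast_nonneg M
    simp only [Set.mem_empty_iff_false, filter_false, card_empty, Nat.cast_zero]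
    positivity)
  obtain ⟨X, hX⟩ : ∃ X : Finset ℕ, X = (Ico N (2 * N)).filter (fun m => ∃ j, Dead ∅ C j m) := ⟨_, rfl⟩
  refine ⟨X, ?_, ?_⟩
  · have h1 : ∀ m ∈ X, ∃ j, Dead ∅ C j m := by
      intro m hm
      rw [hX, mem_filter] at hm
      exact hm.2
    choose! J hJ using h1
    obtain ⟨M, hM⟩ : ∃ M : ℕ, M = ∑ m ∈ X, J m := ⟨_, rfl⟩
    have h2 := (h' M N hN).2
    rw [← sum_filter, sum_const, nsmul_eq_mul, mul_one] at h2
    have h3 : X ⊆ (Ico N (2 * N)).filter (fun m => Dead ∅ C M m) := by
      intro m hm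
      rw [mem_filter]
      refine ⟨?_, ?_⟩
      · rw [hX, mem_filter] at hm; exact hm.1
      · apply Dead_le ∅ C _ m (hJ m hm)
        rw [hM]
        exact single_le_sum (f := J) (fun _ _ => Nat.zero_le _) hm
    have h4 : (X.card : ℝ) ≤ N / Real.log N ^ (B + 1) := le_trans (by exact_mod_cast card_le_card h3) h2
    refine h4.trans ?_
    apply div_le_div_of_nonneg_left (by linarith) (by positivity)
    exact pow_le_pow_right₀ hE2 (by omega)
  · intro m hm1 hm2 hmX
    have hal : Alive ∅ C m := by
      intro j hj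
      apply hmX
      rw [hX, mem_filter, mem_Ico]
      exact ⟨⟨hm1, hm2⟩, j, hj⟩
    obtain ⟨p, a, hp0, hpa⟩ := chain_inf ∅ C m hal
    have hpr : ∀ i, 1 ≤ i → (p i).Prime := by
      intro i hi
      obtain ⟨k, rfl⟩ := Nat.exists_eq_succ_of_ne_zero (by omega : i ≠ 0)
      exact (hpa k).2.2.1.1
    have hp3 : 3 ≤ p 0 := by
      rw [hp0]
      have : 3 ≤ N := by exact_mod_cast hE3
      omega
    have hle : ∀ i, a i * p i ≤ p (i + 1) := by
      intro i
      have h4 := Nat.div_mul_le_self (p (i + 1)) (a i)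
      rw [(hpa i).2.2.2.1] at h4
      rw [mul_comm]; exact h4
    have hlt : ∀ i, p (i + 1) < a i * p i + a i := by
      intro i
      have h4 := Nat.lt_div_mul_add (a := p (i + 1)) (hpa i).1.pos
      rw [(hpa i).2.2.2.1] at h4
      rw [mul_comm (a i)]; exact h4
    have hge3 : ∀ i, 3 ≤ p i := by
      intro i
      induction i with
      | zero => exact hp3
      | succ i ih =>
        have h1 := hle i
        have h2 := (hpa i).1.two_le
        have h3 : 2 * p i ≤ a i * p i := Nat.mul_le_mul_right _ h2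
        omega
    have hmono : StrictMono p := by
      apply strictMono_nat_of_lt_succ
      intro i
      have h1 := hle i
      have h2 := (hpa i).1.two_le
      have h3 : 2 * p i ≤ a i * p i := Nat.mul_le_mul_right _ h2
      have := hge3 i
      omega
    refine ⟨p, hp0, hmono, hpr, ?_, ?_⟩
    · intro i
      obtain ⟨b, hb⟩ := Nat.exists_eq_add_of_le (hle i)
      have hba : b < a i := by have := hlt i; omega
      have hmod : p (i + 1) % p i = b % p i := by
        rw [hb, mul_comm, Nat.mul_add_mod]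
      constructor
      · by_contra hcon
        have h0 : p (i + 1) % p i = 0 := by omega
        have h1 := Nat.dvd_of_mod_eq_zero h0
        rcases (Nat.dvd_prime (hpr (i + 1) (by omega))).1 h1 with h2 | h2
        · have := hge3 i; omega
        · have := hmono (Nat.lt_succ_self i)
          rw [← h2] at this
          exact lt_irrefl _ this
      · rw [hmod]
        have h1 : b % p i ≤ a i := (Nat.mod_le b (p i)).trans hba.le
        exact le_trans (by exact_mod_cast h1) (hpa i).2.1
    · have hx1 : ∀ k, 1 ≤ Real.log (p k) := by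
        intro k
        have h1 : (3 : ℝ) ≤ p k := by exact_mod_cast hge3 k
        rw [Real.le_log_iff_exp_le (by linarith)]
        have := Real.exp_one_lt_d9
        linarith
      obtain ⟨K, hK⟩ := growth (fun k => Real.log (p k)) C hx1 (by
        intro k
        have h1 : (3 : ℝ) ≤ p k := by exact_mod_cast hge3 k
        have h2 := hx1 k
        have h3 : (p (k + 1) : ℝ) ≤ Real.log (p k) ^ C * (2 * p k) := by
          have h4 : (p (k + 1) : ℝ) ≤ a k * p k + a k := by exact_mod_cast (hlt k).le
          have h5 : (a k : ℝ) * p k + a k ≤ a k * (2 * p k) := by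
            have : (0 : ℝ) ≤ a k := Nat.cast_nonneg _
            nlinarith only [this, h1]
          have h6 : (a k : ℝ) * (2 * p k) ≤ Real.log (p k) ^ C * (2 * p k) :=
            mul_le_mul_of_nonneg_right (hpa k).2.1 (by linarith)
          linarith
        have h4 : (0 : ℝ) < p (k + 1) := by
          have := hge3 (k + 1)
          exact_mod_cast (by omega : 0 < p (k + 1))
        refine (Real.log_le_log h4 h3).trans (le_of_eq ?_)
        rw [Real.log_mul (by positivity) (by positivity), Real.log_mul (by norm_num) (by positivity), Real.log_pow]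
        ring)
      refine ⟨K, ?_⟩
      intro k hk
      have h1 := hK k hk
      have h2 : (0 : ℝ) < p k := by
        have := hge3 k
        exact_mod_cast (by omega : 0 < p k)
      rw [← Real.log_le_iff_le_exp h2]
      exact h1

end Pool.Agent.H15.MC
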