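import Pool.Agent.H15.MC.Re

/-! Infinite chains of primes and constants of Mills type with multipliers of polylogarithmic size. -/

set_option autoImplicit false

namespace Pool.Agent.H15.MC
open Finset Filter

lemma Dead_succ (Z : Set ℕ) (C : ℕ) (j m : ℕ) (h : Dead Z C j m) : Dead Z C (j + 1) m := by
  induction j generalizing m with
  | zero => exact h.elim
  | succ j ih =>
    intro a n ha hal hn hnZ h1 h2
    exact ih n (h a n ha hal hn hnZ h1 h2)

lemma Dead_le (Z : Set ℕ) (C : ℕ) {i j : ℕ} (hij : i ≤ j) (m : ℕ) (h : Dead Z C i m) : Dead Z C j m := by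
  induction j, hij using Nat.le_induction with
  | base => exact h
  | succ j _ ih => exact Dead_succ Z C j m ih

/-- `m` starts arbitrarily long chains -/
def Alive (Z : Set ℕ) (C m : ℕ) : Prop := ∀ j, ¬ Dead Z C j m

lemma child (Z : Set ℕ) (C m : ℕ) (hm : Alive Z C m) : ∃ a n : ℕ, a.Prime ∧ (a : ℝ) ≤ Real.log m ^ C ∧ n.Prime ∧ n ∉ Z ∧
    n / a = m ∧ (n + 1) / a = m ∧ Alive Z C n := by
  classical
  by_contra hcon
  push Not at hcon
  have h1 : ∀ a n : ℕ, a.Prime → (a : ℝ) ≤ Real.log m ^ C → n.Prime → n ∉ Z → n / a = m → (n + 1) / a = m → ∃ j, Dead Z C j n := by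
    intro a n ha hal hn hnZ h1 h2
    have h3 := hcon a n ha hal hn hnZ h1 h2
    unfold Alive at h3
    push Not at h3
    exact h3
  choose! J hJ using h1
  obtain ⟨K, hK⟩ : ∃ K : ℕ, K = ⌊Real.log m ^ C⌋₊ := ⟨_, rfl⟩
  obtain ⟨M, hM⟩ : ∃ M : ℕ, M = ∑ a ∈ range (K + 1), ∑ n ∈ range (K * (m + 1)), J a n := ⟨_, rfl⟩
  apply hm (M + 1)
  intro a n ha hal hn hnZ h1 h2
  apply Dead_le Z C _ n (hJ a n ha hal hn hnZ h1 h2)
  have haK : a ≤ K := by rw [hK]; exact Nat.le_floor hal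
  have hnK : n < K * (m + 1) := by
    have h3 : n < a * (m + 1) := by
      have h4 := Nat.lt_div_mul_add (a := n) ha.pos
      rw [h1] at h4
      rw [mul_add, mul_one, mul_comm a m]
      exact h4
    exact lt_of_lt_of_le h3 (Nat.mul_le_mul_right _ haK)
  rw [hM]
  have h3 : J a n ≤ ∑ n ∈ range (K * (m + 1)), J a n :=
    single_le_sum (f := fun n => J a n) (fun _ _ => Nat.zero_le _) (mem_range.2 hnK)
  have h4 : ∑ n ∈ range (K * (m + 1)), J a n ≤ ∑ a ∈ range (K + 1), ∑ n ∈ range (K * (m + 1)), J a n :=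
    single_le_sum (f := fun a => ∑ n ∈ range (K * (m + 1)), J a n) (fun _ _ => Nat.zero_le _) (mem_range.2 (by omega))
  exact h3.trans h4

/-- infinite chains -/
lemma chain_inf (Z : Set ℕ) (C m : ℕ) (hm : Alive Z C m) : ∃ (p a : ℕ → ℕ), p 0 = m ∧ ∀ i, (a i).Prime ∧
    (a i : ℝ) ≤ Real.log (p i) ^ C ∧ ((p (i + 1)).Prime ∧ p (i + 1) ∉ Z) ∧ p (i + 1) / a i = p i ∧ (p (i + 1) + 1) / a i = p i := by
  have h1 : ∀ x : {x : ℕ // Alive Z C x}, ∃ (a : ℕ) (y : {x : ℕ // Alive Z C x}), a.Prime ∧ (a : ℝ) ≤ Real.log x.1 ^ C ∧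
      (y.1.Prime ∧ y.1 ∉ Z) ∧ y.1 / a = x.1 ∧ (y.1 + 1) / a = x.1 := by
    rintro ⟨x, hx⟩
    obtain ⟨a, n, h1, h2, h3, h3', h4, h5, h6⟩ := child Z C x hx
    exact ⟨a, ⟨n, h6⟩, h1, h2, ⟨h3, h3'⟩, h4, h5⟩
  choose f g hf using h1
  obtain ⟨q, hq0, hq⟩ : ∃ q : ℕ → {x : ℕ // Alive Z C x}, q 0 = ⟨m, hm⟩ ∧ ∀ i, q (i + 1) = g (q i) :=
    ⟨fun i => Nat.rec ⟨m, hm⟩ (fun _ x => g x) i, rfl, fun _ => rfl⟩
  refine ⟨fun i => (q i).1, fun i => f (q i), ?_, ?_⟩
  · simp only [hq0]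
  · intro i
    obtain ⟨h1, h2, h3, h4, h5⟩ := hf (q i)
    simp only [hq]
    exact ⟨h1, h2, h3, h4, h5⟩

/-- the constant of an infinite chain -/
lemma const_of_chain (p a : ℕ → ℕ) (ha : ∀ i, 0 < a i) (h1 : ∀ i, p (i + 1) / a i = p i) (h2 : ∀ i, (p (i + 1) + 1) / a i = p i) :
    ∃ α : ℝ, ∀ i, (p i : ℝ) ≤ α * ∏ j ∈ range i, (a j : ℝ) ∧ α * ∏ j ∈ range i, (a j : ℝ) < p i + 1 := by
  obtain ⟨Q, hQ⟩ : ∃ Q : ℕ → ℝ, ∀ i, Q i = ∏ j ∈ range i, (a j : ℝ) := ⟨_, fun _ => rfl⟩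
  have har : ∀ i, (0 : ℝ) < a i := fun i => by exact_mod_cast ha i
  have hQ0 : ∀ i, 0 < Q i := fun i => by rw [hQ]; exact prod_pos fun j _ => har j
  have hQs : ∀ i, Q (i + 1) = Q i * a i := fun i => by rw [hQ, hQ, prod_range_succ]
  have hp1 : ∀ i, (a i : ℝ) * p i ≤ p (i + 1) := by
    intro i
    have h3 : p i * a i ≤ p (i + 1) := by
      have h4 := Nat.div_mul_le_self (p (i + 1)) (a i)
      rw [h1 i] at h4
      exact h4
    have h4 : (p i : ℝ) * a i ≤ p (i + 1) := by exact_mod_cast h3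
    linarith
  have hp2 : ∀ i, (p (i + 1) : ℝ) + 1 < a i * (p i + 1) := by
    intro i
    have h3 : p (i + 1) + 1 < p i * a i + a i := by
      have h4 := Nat.lt_div_mul_add (a := p (i + 1) + 1) (ha i)
      rw [h2 i] at h4
      exact h4
    have h4 : (p (i + 1) : ℝ) + 1 < p i * a i + a i := by exact_mod_cast h3
    linarith
  have hl : Monotone fun i => (p i : ℝ) / Q i := by
    apply monotone_nat_of_le_succ
    intro i
    rw [hQs, div_le_div_iff₀ (hQ0 i) (mul_pos (hQ0 i) (har i))]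
    have := mul_le_mul_of_nonneg_right (hp1 i) (hQ0 i).le
    linarith
  have hu : StrictAnti fun i => ((p i : ℝ) + 1) / Q i := by
    apply strictAnti_nat_of_succ_lt
    intro i
    rw [hQs, div_lt_div_iff₀ (mul_pos (hQ0 i) (har i)) (hQ0 i)]
    have := mul_lt_mul_of_pos_right (hp2 i) (hQ0 i)
    linarith
  have hlu : ∀ i k, (p k : ℝ) / Q k ≤ ((p i : ℝ) + 1) / Q i := by
    intro i k
    rcases le_total i k with h | h
    · have h3 := hu.antitone h
      refine le_trans ?_ h3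
      exact div_le_div_of_nonneg_right (by linarith) (hQ0 k).le
    · have h3 := hl h
      simp only at h3
      refine h3.trans ?_
      exact div_le_div_of_nonneg_right (by linarith) (hQ0 i).le
  have hbdd : BddAbove (Set.range fun i => (p i : ℝ) / Q i) := by
    refine ⟨((p 0 : ℝ) + 1) / Q 0, ?_⟩
    rintro x ⟨k, rfl⟩
    exact hlu 0 k
  refine ⟨⨆ i, (p i : ℝ) / Q i, ?_⟩
  intro i
  rw [← hQ]
  constructor
  · have h3 := le_ciSup hbdd i
    rwa [div_le_iff₀ (hQ0 i)] at h3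
  · have h3 : (⨆ i, (p i : ℝ) / Q i) ≤ ((p (i + 1) : ℝ) + 1) / Q (i + 1) := ciSup_le fun k => hlu (i + 1) k
    have h4 := hu (Nat.lt_succ_self i)
    simp only at h4
    have h5 := lt_of_le_of_lt h3 h4
    rwa [lt_div_iff₀ (hQ0 i)] at h5

/-- **Constants of Mills type with multipliers of polylogarithmic size.** -/
theorem mills (B : ℕ) : ∃ (C : ℕ) (N₀ : ℝ), ∀ Z : Set ℕ,
    (∀ M : ℕ, N₀ ≤ M → ((Z ∩ Set.Ico M (2 * M)).ncard : ℝ) ≤ M / Real.log M ^ (B + 7)) →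
    ∀ N : ℕ, N₀ ≤ N → ∃ X : Finset ℕ, (X.card : ℝ) ≤ N / Real.log N ^ B ∧
    ∀ m : ℕ, N ≤ m → m < 2 * N → m ∉ X → ∃ (α : ℝ) (a : ℕ → ℕ), (m : ℝ) ≤ α ∧ α < m + 1 ∧
      (∀ i, (a i).Prime ∧ (a i : ℝ) ≤ Real.log (α * ∏ j ∈ range i, (a j : ℝ)) ^ C) ∧
      ∀ i, (⌊α * ∏ j ∈ range (i + 1), (a j : ℝ)⌋₊).Prime ∧ ⌊α * ∏ j ∈ range (i + 1), (a j : ℝ)⌋₊ ∉ Z := by
  classical
  obtain ⟨C, N₀, h⟩ := masses (B + 1) (by omega)
  refine ⟨C, max N₀ (Real.exp 1), ?_⟩
  intro Z hZ N hN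
  have hE3' : Real.exp 1 ≤ N := (le_max_right _ _).trans hN
  have hE3 : (1 : ℝ) ≤ N := le_trans (by have := Real.add_one_le_exp (1 : ℝ); linarith) hE3'
  have hE2 : 1 ≤ Real.log N := by rw [Real.le_log_iff_exp_le (by linarith)]; exact hE3'
  have h' := h (max N₀ (Real.exp 1)) (le_max_left _ _) Z (by
    intro M hM
    refine le_trans (le_of_eq ?_) (hZ M hM)
    rw [← Set.ncard_coe_finset]
    congr 2
    ext n
    simp only [coe_filter, mem_Ico, Set.mem_inter_iff, Set.mem_Ico, Set.mem_ofPred_eq]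
    tauto)
  obtain ⟨X, hX⟩ : ∃ X : Finset ℕ, X = (Ico N (2 * N)).filter (fun m => ∃ j, Dead Z C j m) := ⟨_, rfl⟩
  refine ⟨X, ?_, ?_⟩
  · have h1 : ∀ m ∈ X, ∃ j, Dead Z C j m := by
      intro m hm
      rw [hX, mem_filter] at hm
      exact hm.2
    choose! J hJ using h1
    obtain ⟨M, hM⟩ : ∃ M : ℕ, M = ∑ m ∈ X, J m := ⟨_, rfl⟩
    have h2 := (h' M N hN).2
    rw [← sum_filter, sum_const, nsmul_eq_mul, mul_one] at h2
    have h3 : X ⊆ (Ico N (2 * N)).filter (fun m => Dead Z C M m) := by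
      intro m hm
      rw [mem_filter]
      refine ⟨?_, ?_⟩
      · rw [hX, mem_filter] at hm; exact hm.1
      · apply Dead_le Z C _ m (hJ m hm)
        rw [hM]
        exact single_le_sum (f := J) (fun _ _ => Nat.zero_le _) hm
    have h4 : (X.card : ℝ) ≤ N / Real.log N ^ (B + 1) := le_trans (by exact_mod_cast card_le_card h3) h2
    refine h4.trans ?_
    apply div_le_div_of_nonneg_left (by linarith) (by positivity)
    exact pow_le_pow_right₀ hE2 (by omega)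
  · intro m hm1 hm2 hmX
    have hal : Alive Z C m := by
      intro j hj
      apply hmX
      rw [hX, mem_filter, mem_Ico]
      exact ⟨⟨hm1, hm2⟩, j, hj⟩
    obtain ⟨p, a, hp0, hpa⟩ := chain_inf Z C m hal
    obtain ⟨α, hα⟩ := const_of_chain p a (fun i => (hpa i).1.pos) (fun i => (hpa i).2.2.2.1) (fun i => (hpa i).2.2.2.2)
    refine ⟨α, a, ?_, ?_, ?_, ?_⟩
    · have := (hα 0).1
      rw [hp0] at this
      simpa using this
    · have := (hα 0).2
      rw [hp0] at this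
      simpa using this
    · intro i
      refine ⟨(hpa i).1, (hpa i).2.1.trans ?_⟩
      have hpi : 1 ≤ p i := by
        rcases Nat.eq_zero_or_pos i with h0 | h0
        · rw [h0, hp0]
          have : 1 ≤ N := by exact_mod_cast hE3
          omega
        · obtain ⟨k, rfl⟩ := Nat.exists_eq_succ_of_ne_zero (by omega : i ≠ 0)
          exact (hpa k).2.2.1.1.one_lt.le
      have hpi' : (1 : ℝ) ≤ p i := by exact_mod_cast hpi
      apply pow_le_pow_left₀ (Real.log_nonneg hpi')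
      exact Real.log_le_log (by linarith) (hα i).1
    · intro i
      have h1 := hα (i + 1)
      have h2 : ⌊α * ∏ j ∈ range (i + 1), (a j : ℝ)⌋₊ = p (i + 1) := by
        rw [Nat.floor_eq_iff (le_trans (Nat.cast_nonneg _) h1.1)]
        exact h1
      rw [h2]
      exact (hpa i).2.2.1

end Pool.Agent.H15.MC
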