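import Pool.Agent.H15.MC.Net
import Pool.Agent.H15.JD.Ci

/-! Few integers `n` have more prime quotients `⌊n / a⌋`, `a` in a short dense set of primes, than expected. -/

set_option autoImplicit false

namespace Pool.Agent.H15.MC
open Finset MeasureTheory Filter
open Pool.Agent.H15.JD (lp lp_nonneg lp_le)
open Pool.Agent.Results.MP_711652_nt.PolylogPrimeDilations (count_bad)

/-- the prime quotients of `n` against the clean count -/
lemma quot_GQ (A : Finset ℕ) (n : ℕ) (P y : ℝ) (hP : 0 < P) (hy1 : (n : ℝ) ≤ y) (hy2 : y < n + 1) (hyP : P < y)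
    (hA : ∀ a ∈ A, a.Prime ∧ (a : ℝ) ≤ P) :
    ∑ a ∈ A, lp (n / a) ≤ 2 * y / P * GQ A (fun a => P / (2 * a)) (Real.log (y / (y - P))) (Real.log (y - P)) := by
  unfold GQ
  rw [mul_sum]
  apply sum_le_sum
  intro a ha
  obtain ⟨hap, haP⟩ := hA a ha
  have ha0 : (0 : ℝ) < a := by exact_mod_cast hap.pos
  have hy0 : 0 < y := by linarith
  have hyP0 : 0 < y - P := by linarith
  have e1 : Real.exp (Real.log (y - P) - Real.log a) = (y - P) / a := by
    rw [Real.exp_sub, Real.exp_log hyP0, Real.exp_log ha0]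
  have e2 : (y - P) / a * Real.exp (Real.log (y / (y - P))) = y / a := by
    rw [Real.exp_log (by positivity)]; field_simp
  rw [e1, e2]
  have hnn : 0 ≤ ∑ p ∈ (Ioc ⌊(y - P) / a⌋₊ ⌊y / a⌋₊).filter Nat.Prime, Real.log p / p := by
    apply sum_nonneg
    intro p hp
    rw [mem_filter] at hp
    have : (1 : ℝ) ≤ p := by exact_mod_cast hp.2.one_lt.le
    exact div_nonneg (Real.log_nonneg this) (by linarith)
  by_cases hpr : (n / a).Prime
  · obtain ⟨p, hp⟩ : ∃ p : ℕ, p = n / a := ⟨_, rfl⟩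
    rw [← hp] at hpr ⊢
    have hp0 : (0 : ℝ) < p := by exact_mod_cast hpr.pos
    have h1 : (p : ℝ) ≤ y / a := by
      rw [le_div_iff₀ ha0]
      have : p * a ≤ n := by rw [hp]; exact Nat.div_mul_le_self n a
      have h2 : (p : ℝ) * a ≤ n := by exact_mod_cast this
      linarith
    have h2 : (y - P) / a < p := by
      rw [div_lt_iff₀ ha0]
      have h3 : n < (p + 1) * a := by
        rw [hp]
        have := Nat.lt_div_mul_add (a := n) hap.pos
        rw [add_mul, one_mul]
        exact this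
      have h4 : n + 1 ≤ (p + 1) * a := h3
      have h5 : (n : ℝ) + 1 ≤ (p + 1) * a := by exact_mod_cast h4
      linarith [add_mul (p : ℝ) 1 a]
    have hmem : p ∈ (Ioc ⌊(y - P) / a⌋₊ ⌊y / a⌋₊).filter Nat.Prime := by
      rw [mem_filter, mem_Ioc]
      exact ⟨⟨(Nat.floor_lt (by positivity)).2 h2, Nat.le_floor h1⟩, hpr⟩
    have h3 : Real.log p / p ≤ ∑ p ∈ (Ioc ⌊(y - P) / a⌋₊ ⌊y / a⌋₊).filter Nat.Prime, Real.log p / p := by
      apply single_le_sum (f := fun p : ℕ => Real.log p / p) _ hmem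
      intro q hq
      rw [mem_filter] at hq
      have : (1 : ℝ) ≤ q := by exact_mod_cast hq.2.one_lt.le
      exact div_nonneg (Real.log_nonneg this) (by linarith)
    have h4 : lp p = Real.log p := by unfold Pool.Agent.H15.JD.lp; rw [if_pos hpr]
    rw [h4]
    have hl : 0 ≤ Real.log p := Real.log_nonneg (by exact_mod_cast hpr.one_lt.le)
    have h5 : Real.log p ≤ 2 * y / P * (P / (2 * a) * (Real.log p / p)) := by
      have h6 : 2 * y / P * (P / (2 * a) * (Real.log p / p)) = (y / a / p) * Real.log p := by field_simp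
      rw [h6]
      have h7 : 1 ≤ y / a / p := by rw [one_le_div hp0]; exact h1
      nlinarith only [h7, hl]
    refine h5.trans ?_
    apply mul_le_mul_of_nonneg_left _ (by positivity)
    exact mul_le_mul_of_nonneg_left h3 (by positivity)
  · have h4 : lp (n / a) = 0 := by unfold Pool.Agent.H15.JD.lp; rw [if_neg hpr]
    rw [h4]
    positivity

/-- few integers have too many prime quotients -/
theorem quot_upper (B D : ℕ) : ∃ (C : ℕ) (N₀ : ℝ), ∀ (N P : ℕ) (A : Finset ℕ), N₀ ≤ N → Real.log N ^ C ≤ P → P ≤ N →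
    (∀ a ∈ A, a.Prime ∧ (P : ℝ) * (1 - 1 / Real.log N ^ (B + 1)) ≤ a ∧ (a : ℝ) ≤ P) → (P : ℝ) / Real.log N ^ D ≤ A.card →
    (((Ico (N * P) (2 * (N * P))).filter (fun n => (1 + 1 / Real.log N ^ B) * A.card < ∑ a ∈ A, lp (n / a))).card : ℝ) ≤
      N * P / Real.log N ^ B := by
  classical
  obtain ⟨C, Y₀, hU⟩ := uniform (B + 1 + D)
  obtain ⟨Y₁, hY₁⟩ := Pool.Agent.H15.QP.poly_le_exp (B + 1) 2 1 (by norm_num) (by norm_num)
  refine ⟨C, Real.exp (max (max Y₀ 100) Y₁), ?_⟩
  intro N P A hN hCP hPN hA hcard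
  have hNp : (0 : ℝ) < N := (Real.exp_pos _).trans_le hN
  obtain ⟨L, hL⟩ : ∃ L : ℝ, L = Real.log N := ⟨_, rfl⟩
  have hLN : max (max Y₀ 100) Y₁ ≤ L := by rw [hL, Real.le_log_iff_exp_le hNp]; exact hN
  have hL0 : Y₀ ≤ L := (le_max_left _ _).trans ((le_max_left _ _).trans hLN)
  have hL100 : 100 ≤ L := (le_max_right _ _).trans ((le_max_left _ _).trans hLN)
  have hLY : 2 * L ^ (B + 1) ≤ Real.exp (1 * L) := hY₁ L ((le_max_right _ _).trans hLN)
  rw [← hL] at hCP hA hcard ⊢
  have hLp : 0 < L := by linarith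
  have hL1 : 1 ≤ L := by linarith
  have hP0 : (0 : ℝ) < P := lt_of_lt_of_le (by positivity) hCP
  have hP1 : (1 : ℝ) ≤ P := by
    have : 0 < P := by exact_mod_cast hP0
    exact_mod_cast this
  have hexpL : Real.exp L = N := by rw [hL, Real.exp_log hNp]
  have hPNr : (P : ℝ) ≤ N := by exact_mod_cast hPN
  have hLN1 : L + 1 ≤ N := by rw [← hexpL]; exact Real.add_one_le_exp L
  have hLB1 : 1 ≤ L ^ (B + 1) := one_le_pow₀ hL1
  have hLB : 1 ≤ L ^ B := one_le_pow₀ hL1
  have hLBL : L ^ (B + 1) = L ^ B * L := pow_succ L B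
  have hLBD : L ^ (B + 1) ≤ L ^ (B + 1 + D) := pow_le_pow_right₀ hL1 (by omega)
  obtain ⟨κ, hκ⟩ : ∃ κ : ℝ, κ = 1 / L ^ (B + 1) := ⟨_, rfl⟩
  have hκ0 : 0 < κ := by rw [hκ]; positivity
  have hκs : κ ≤ 1 / 100 := by
    rw [hκ]
    apply one_div_le_one_div_of_le (by norm_num)
    rw [hLBL]; nlinarith only [hLB, hL100]
  rw [← hκ] at hA
  have hAhalf : ∀ a ∈ A, (P : ℝ) / 2 < a := by
    intro a ha
    have h1 := (hA a ha).2.1
    nlinarith only [h1, hκs, hP0]
  obtain ⟨E, hE, hEb⟩ := hU L P A (fun a => P / (2 * a)) hL0 hCP (by rw [hexpL]; exact hPNr)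
    (fun a ha => ⟨(hA a ha).1, hAhalf a ha, (hA a ha).2.2⟩)
    (by
      intro a ha
      have h1 := hAhalf a ha
      have h2 := (hA a ha).2.2
      have ha0 : (0 : ℝ) < a := by linarith
      constructor
      · rw [le_div_iff₀ (by positivity)]; linarith
      · rw [div_le_one (by positivity)]; linarith)
    (by
      refine le_trans ?_ hcard
      exact div_le_div_of_nonneg_left hP0.le (by positivity) (pow_le_pow_right₀ hL1 (by omega)))
  obtain ⟨X, hX⟩ : ∃ X : ℝ, X = 2 * (N * P) := ⟨_, rfl⟩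
  have hX0 : 0 < X := by rw [hX]; positivity
  obtain ⟨F, hF⟩ : ∃ F : Set ℝ, F = Real.exp '' (toMeasurable volume E ∩ Set.Iic (Real.log X)) := ⟨_, rfl⟩
  have hFv : volume F ≤ ENNReal.ofReal (X / L ^ (B + 1)) := by
    rw [hF]
    refine (Pool.Agent.H15.QP.exp_img E X hX0).trans ?_
    calc ENNReal.ofReal X * volume E ≤ ENNReal.ofReal X * ENNReal.ofReal (1 / L ^ (B + 1 + D)) := by gcongr
      _ ≤ ENNReal.ofReal X * ENNReal.ofReal (1 / L ^ (B + 1)) := by gcongr
      _ = ENNReal.ofReal (X / L ^ (B + 1)) := by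
          rw [← ENNReal.ofReal_mul hX0.le]
          congr 1; ring
  obtain ⟨Bd, hBd⟩ : ∃ Bd : Finset ℕ, Bd = (Ico (N * P) (2 * (N * P))).filter (fun n => (1 + 1 / L ^ B) * A.card < ∑ a ∈ A, lp (n / a)) := ⟨_, rfl⟩
  rw [← hBd]
  have key : ∀ n ∈ Bd, ∀ y : ℝ, (n : ℝ) ≤ y → y < n + 1 → y - P ∈ F := by
    intro n hn y hy1 hy2
    rw [hBd, mem_filter, mem_Ico] at hn
    obtain ⟨⟨hn1, hn2⟩, hn3⟩ := hn
    by_contra hyF
    have hn1r : (N : ℝ) * P ≤ n := by exact_mod_cast hn1
    have hn2r : (n : ℝ) + 1 ≤ X := by rw [hX]; exact_mod_cast hn2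
    have hyP : (P : ℝ) < y := by nlinarith only [hn1r, hy1, hLN1, hL100, hP1]
    have hy0 : 0 < y := by linarith
    have hyP0 : 0 < y - P := by linarith
    have hu : Real.log (y - P) ∉ E := by
      intro hu
      apply hyF
      rw [hF]
      refine ⟨Real.log (y - P), ⟨subset_toMeasurable _ _ hu, ?_⟩, Real.exp_log hyP0⟩
      exact Real.log_le_log hyP0 (by linarith)
    have hlow : (N : ℝ) * P * (99 / 100) ≤ y - P := by nlinarith only [hn1r, hy1, hLN1, hL100, hP1]
    have hup : y - P ≤ N * P * 2 := by rw [hX] at hn2r; linarith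
    have hur : |Real.log (y - P) - Real.log P - L| ≤ 4 / 5 := by
      have h1 : Real.log (y - P) ≤ Real.log N + Real.log P + Real.log 2 := by
        rw [← Real.log_mul hNp.ne' hP0.ne', ← Real.log_mul (by positivity) (by norm_num)]
        exact Real.log_le_log hyP0 hup
      have h2 : Real.log N + Real.log P + Real.log (99 / 100) ≤ Real.log (y - P) := by
        rw [← Real.log_mul hNp.ne' hP0.ne', ← Real.log_mul (by positivity) (by norm_num)]
        exact Real.log_le_log (by positivity) hlow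
      have h3 := Real.log_two_lt_d9
      have h4 := Real.one_sub_inv_le_log_of_pos (show (0 : ℝ) < 99 / 100 by norm_num)
      norm_num at h4
      rw [← hL] at h1 h2
      rw [abs_le]
      constructor <;> linarith
    obtain ⟨h, hh⟩ : ∃ h : ℝ, h = Real.log (y / (y - P)) := ⟨_, rfl⟩
    have hh1 : h ≤ P / (y - P) := by
      rw [hh]
      have h1 := Real.log_le_sub_one_of_pos (show 0 < y / (y - P) by positivity)
      have h2 : y / (y - P) - 1 = P / (y - P) := by field_simp; ring
      linarith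
    have hh2 : P / y ≤ h := by
      rw [hh]
      have h1 := Real.one_sub_inv_le_log_of_pos (show 0 < y / (y - P) by positivity)
      have h2 : 1 - (y / (y - P))⁻¹ = P / y := by field_simp; ring
      linarith
    have hh3 : h ≤ 1 / 4 := by
      refine hh1.trans ?_
      rw [div_le_iff₀ hyP0]
      nlinarith only [hlow, hLN1, hL100, hP1]
    have hh4 : Real.exp (-L) / L ^ (B + 1 + D) ≤ h := by
      refine (div_le_div_of_nonneg_left (Real.exp_pos _).le (by positivity) hLBD).trans ?_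
      refine le_trans ?_ hh2
      rw [Real.exp_neg, hexpL, inv_eq_one_div, div_div, div_le_div_iff₀ (by positivity) hy0, one_mul]
      have h1 : y ≤ N * P * 3 := by linarith
      have h2 : (N : ℝ) * P * 3 ≤ P * (N * L ^ (B + 1)) := by
        have h3 : 3 ≤ L ^ (B + 1) := by rw [hLBL]; nlinarith only [hLB, hL100]
        have h4 := mul_le_mul_of_nonneg_left h3 (by positivity : 0 ≤ (N : ℝ) * P)
        linarith
      linarith
    have h5 := hEb (Real.log (y - P)) hu hur h hh4 hh3
    have h6 := quot_GQ A n P y hP0 hy1 hy2 hyP (fun a ha => ⟨(hA a ha).1, (hA a ha).2.2⟩)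
    rw [← hh] at h6
    obtain ⟨G, hG⟩ : ∃ G : ℝ, G = GQ A (fun a => (P : ℝ) / (2 * a)) h (Real.log (y - P)) := ⟨_, rfl⟩
    rw [← hG] at h5 h6
    obtain ⟨W, hW⟩ : ∃ W : ℝ, W = ∑ a ∈ A, (P : ℝ) / (2 * a) := ⟨_, rfl⟩
    rw [← hW] at h5
    have hW1 : W ≤ A.card * (1 / (2 * (1 - κ))) := by
      rw [hW, ← nsmul_eq_mul]
      apply sum_le_card_nsmul
      intro a ha
      have h7 := hAhalf a ha
      have h8 := (hA a ha).2.1
      have ha0 : (0 : ℝ) < a := by linarith
      rw [div_le_div_iff₀ (by positivity) (by linarith)]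
      linarith
    have hW0 : 0 ≤ W := by
      rw [hW]; exact sum_nonneg fun a _ => by positivity
    have hh0 : 0 ≤ h := le_trans (by positivity) hh2
    have hG1 : G ≤ W * h * (1 + κ) := by
      rw [abs_le] at h5
      have h51 : W * h / L ^ (B + 1 + D) ≤ W * h / L ^ (B + 1) :=
        div_le_div_of_nonneg_left (mul_nonneg hW0 hh0) (by positivity) hLBD
      have h52 : W * h / L ^ (B + 1) = W * h * κ := by rw [hκ]; ring
      linarith [h5.2]
    have h7 : 2 * y / P * G ≤ A.card * ((1 + κ) * (1 + κ) / (1 - κ)) := by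
      have h8 : 2 * y / P * G ≤ 2 * y / P * (A.card * (1 / (2 * (1 - κ))) * (P / (y - P)) * (1 + κ)) := by
        apply mul_le_mul_of_nonneg_left _ (by positivity)
        refine hG1.trans ?_
        apply mul_le_mul_of_nonneg_right _ (by linarith)
        exact mul_le_mul hW1 hh1 hh0 (by have : 0 < 1 - κ := by linarith
                                         positivity)
      refine h8.trans ?_
      have h1κ : 0 < 1 - κ := by linarith
      have h9 : 2 * y / P * (A.card * (1 / (2 * (1 - κ))) * (P / (y - P)) * (1 + κ)) = A.card * ((y / (y - P)) * (1 + κ) / (1 - κ)) := by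
        field_simp
      rw [h9]
      apply mul_le_mul_of_nonneg_left _ (Nat.cast_nonneg _)
      apply div_le_div_of_nonneg_right _ h1κ.le
      apply mul_le_mul_of_nonneg_right _ (by linarith)
      rw [div_le_iff₀ hyP0]
      -- y ≤ (1 + κ) (y - P)
      have h10 : (P : ℝ) ≤ κ * (y - P) := by
        rw [hκ, div_mul_eq_mul_div, one_mul, le_div_iff₀ (by positivity)]
        have h11 : 2 * L ^ (B + 1) ≤ N := by rw [one_mul, hexpL] at hLY; exact hLY
        have h12 := mul_le_mul_of_nonneg_left h11 hP0.le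
        nlinarith only [h12, hlow, hP0, hNp]
      linarith
    have h8 : (1 + κ) * (1 + κ) / (1 - κ) ≤ 1 + 1 / L ^ B := by
      have h9 : 1 / L ^ B = κ * L := by rw [hκ, hLBL]; field_simp
      have h10 : κ * L ≤ 1 := by
        rw [← h9, div_le_one (by positivity)]; exact hLB
      rw [h9, div_le_iff₀ (by linarith)]
      have h11 : 0 ≤ κ * (L - 3 - κ - κ * L) := mul_nonneg hκ0.le (by linarith)
      linarith [show (1 + κ * L) * (1 - κ) - (1 + κ) * (1 + κ) = κ * (L - 3 - κ - κ * L) by ring]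
    have h9 := mul_le_mul_of_nonneg_left h8 (Nat.cast_nonneg A.card : (0 : ℝ) ≤ A.card)
    linarith
  have hcount := count_bad F (Bd.map Nat.castEmbedding) (-(P : ℝ)) (1 / 2) (X / L ^ (B + 1)) (by norm_num) (by positivity) hFv
    (by
      intro x hx x' hx' hne
      rw [Finset.mem_map] at hx hx'
      obtain ⟨m, hm, rfl⟩ := hx
      obtain ⟨m', hm', rfl⟩ := hx'
      simp only [Nat.castEmbedding_apply] at hne ⊢
      have h1 : (m : ℤ) ≠ m' := by
        intro h
        apply hne
        have : m = m' := by exact_mod_cast h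
        rw [this]
      have h2 : (1 : ℤ) ≤ |(m : ℤ) - m'| := Int.one_le_abs (sub_ne_zero.2 h1)
      have h3 : (1 : ℝ) ≤ |(m : ℝ) - m'| := by exact_mod_cast h2
      linarith)
    (by
      intro x hx z hz
      rw [Finset.mem_map] at hx
      obtain ⟨m, hm, rfl⟩ := hx
      simp only [Nat.castEmbedding_apply] at hz
      obtain ⟨hz1, hz2⟩ := hz
      have := key m hm (z + P) (by linarith) (by linarith)
      rw [add_sub_cancel_right] at this
      exact this)
  rw [card_map] at hcount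
  rw [hX] at hcount
  rw [hLBL] at hcount
  have h1 : 2 * ((N : ℝ) * P) / (L ^ B * L) * 2 = (N * P / L ^ B) * (4 / L) := by field_simp; ring
  have h2 : 4 / L ≤ 1 := by rw [div_le_one hLp]; linarith
  have h3 := mul_le_mul_of_nonneg_left h2 (by positivity : 0 ≤ (N : ℝ) * P / L ^ B)
  linarith

end Pool.Agent.H15.MC
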