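import Pool.Agent.H15.MC.Fo

/-! Few integers start no long chains of primes. -/

set_option autoImplicit false

namespace Pool.Agent.H15.MC
open Finset Filter
open Pool.Agent.H15.JD (lp lp_nonneg lp_le)

/-- `m` starts no chain of length `j` outside `Z` -/
def Dead (Z : Set ℕ) (C : ℕ) : ℕ → ℕ → Prop
  | 0, _ => False
  | j + 1, m => ∀ a n : ℕ, a.Prime → (a : ℝ) ≤ Real.log m ^ C → n.Prime → n ∉ Z → n / a = m → (n + 1) / a = m → Dead Z C j n

open Classical in
theorem masses (b : ℕ) (hb : 1 ≤ b) : ∃ (C : ℕ) (N₀ : ℝ), ∀ N₁ : ℝ, N₀ ≤ N₁ → ∀ Z : Set ℕ,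
    (∀ M : ℕ, N₁ ≤ M → (((Ico M (2 * M)).filter (fun n => n ∈ Z)).card : ℝ) ≤ M / Real.log M ^ (b + 6)) →
    ∀ j N : ℕ, N₁ ≤ N →
    ((∑ m ∈ Ico N (2 * N), (if Dead Z C j m then lp m else 0)) ≤ N / Real.log N ^ b) ∧
    ((∑ m ∈ Ico N (2 * N), (if Dead Z C j m then (1 : ℝ) else 0)) ≤ N / Real.log N ^ b) := by
  obtain ⟨C1, N1, h1⟩ := forward (b + 5) (b + 8) (by omega)
  obtain ⟨C2, N2, h2⟩ := quot_upper (b + 5) (b + 8)
  obtain ⟨N3, h3⟩ := mults (b + 5) (max C1 C2 + 1) (by omega)
  have hev : ∀ᶠ N : ℝ in atTop, N1 ≤ N ∧ N2 ≤ N ∧ N3 ≤ N ∧ 100 ≤ Real.log N ∧ 2 ≤ N :=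
    (eventually_ge_atTop _).and ((eventually_ge_atTop _).and ((eventually_ge_atTop _).and
      ((Real.tendsto_log_atTop.eventually_ge_atTop _).and (eventually_ge_atTop _))))
  obtain ⟨N₀, hN₀⟩ := eventually_atTop.1 hev
  obtain ⟨C, hC⟩ : ∃ C : ℕ, C = max C1 C2 + 1 + (b + 5) + 2 := ⟨_, rfl⟩
  refine ⟨C, N₀, ?_⟩
  intro N₁ hN₁ Z hZ j
  induction j with
  | zero =>
    intro N hN
    have hlog : 0 ≤ Real.log N := Real.log_natCast_nonneg N
    have h0 : ∀ m, ¬ Dead Z C 0 m := fun m h => h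
    simp only [h0, if_false, sum_const_zero]
    constructor <;> positivity
  | succ j ih =>
    intro N hN
    obtain ⟨hE1, hE2, hE3, hE4, hE5⟩ := hN₀ N (hN₁.trans hN)
    obtain ⟨P, s, A, hsP, hPN, hPlow, hPup, hA, hs, hcard⟩ := h3 N hE3
    have hNr : (0 : ℝ) < N := by linarith
    have hPNr : (P : ℝ) ≤ N := by exact_mod_cast hPN
    have f1 := h1 N P A hE1
    have f2 := h2 N P A hE2
    obtain ⟨L, hL⟩ : ∃ L : ℝ, L = Real.log N := ⟨_, rfl⟩
    rw [← hL] at hE4 hPlow hPup hs hcard f1 f2 ⊢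
    have hL0 : 0 < L := by linarith
    have hL1 : 1 ≤ L := by linarith
    have hP0 : (0 : ℝ) < P := lt_of_lt_of_le (by positivity) hPlow
    have hP1n : 1 ≤ P := by exact_mod_cast hP0
    obtain ⟨δ, hδ⟩ : ∃ δ : ℝ, δ = 1 / L ^ (b + 5) := ⟨_, rfl⟩
    have hδ0 : 0 < δ := by rw [hδ]; positivity
    have hLb : 1 ≤ L ^ b := one_le_pow₀ hL1
    have hL5 : L ≤ L ^ (b + 5) := le_self_pow₀ hL1 (by omega)
    have hδs : δ ≤ 1 / 100 := by
      rw [hδ]
      exact one_div_le_one_div_of_le (by norm_num) (by linarith)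
    have hs' : (s : ℝ) ≤ P * δ := by
      refine hs.trans ?_
      apply mul_le_mul_of_nonneg_left _ hP0.le
      rw [hδ]
      exact one_div_le_one_div_of_le (by positivity) (pow_le_pow_right₀ hL1 (by omega))
    have hsub : ((P - s : ℕ) : ℝ) = P - s := by rw [Nat.cast_sub hsP]
    have hAr : ∀ a ∈ A, (P : ℝ) - s ≤ a ∧ (a : ℝ) ≤ P := by
      intro a ha
      obtain ⟨_, q1, q2⟩ := hA a ha
      constructor
      · rw [← hsub]; exact_mod_cast q1
      · exact_mod_cast q2
    have hAhalf : ∀ a ∈ A, (P : ℝ) / 2 < a := by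
      intro a ha
      have q1 := (hAr a ha).1
      nlinarith only [q1, hs', hδs, hP0]
    have hAc0 : (0 : ℝ) < A.card := lt_of_lt_of_le (by positivity) hcard
    obtain ⟨T, hT⟩ : ∃ T : ℝ, T = ∑ a ∈ A, (a : ℝ) := ⟨_, rfl⟩
    have hT1 : (A.card : ℝ) * P * (1 - δ) ≤ T := by
      have q : A.card • ((P : ℝ) - s) ≤ T := by
        rw [hT]; exact card_nsmul_le_sum _ _ _ (fun a ha => (hAr a ha).1)
      rw [nsmul_eq_mul] at q
      have q2 : (A.card : ℝ) * (P * (1 - δ)) ≤ A.card * (P - s) := by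
        apply mul_le_mul_of_nonneg_left _ hAc0.le
        linarith
      linarith
    have hT2 : T ≤ A.card * P := by
      rw [hT, ← nsmul_eq_mul]
      exact sum_le_card_nsmul _ _ _ (fun a ha => (hAr a ha).2)
    have hT3 : (A.card : ℝ) * P / 2 ≤ T := by
      have : 0 ≤ (A.card : ℝ) * P := by positivity
      nlinarith only [hT1, this, hδs]
    -- the exceptional sets
    have hC1 : L ^ C1 ≤ P := (pow_le_pow_right₀ hL1 (by omega)).trans hPlow
    have hC2 : L ^ C2 ≤ P := (pow_le_pow_right₀ hL1 (by omega)).trans hPlow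
    obtain ⟨X1, hX1, hX1b⟩ := f1 hC1 hPN (fun a ha => ⟨(hA a ha).1, hAhalf a ha, (hAr a ha).2⟩) hcard
    have hX2 := f2 hC2 hPN (fun a ha => ⟨(hA a ha).1, by
      have q1 := (hAr a ha).1
      linarith [hs], (hAr a ha).2⟩) hcard
    obtain ⟨X2, hX2d⟩ : ∃ X2 : Finset ℕ, X2 = (Ico (N * P) (2 * (N * P))).filter (fun n => (1 + 1 / L ^ (b + 5)) * A.card < ∑ a ∈ A, lp (n / a)) := ⟨_, rfl⟩
    rw [← hX2d] at hX2
    rw [← hδ, ← hT] at hX1b
    -- the next level
    have hNP : ((N * P : ℕ) : ℝ) = N * P := by push_cast; ring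
    have hNPge : (N : ℝ) ≤ ((N * P : ℕ) : ℝ) := by
      rw [hNP]
      exact le_mul_of_one_le_right hNr.le (by exact_mod_cast hP1n)
    have hih := (ih (N * P) (hN.trans hNPge)).1
    have hZ' := hZ (N * P) (hN.trans hNPge)
    obtain ⟨L', hL'⟩ : ∃ L' : ℝ, L' = Real.log ((N * P : ℕ) : ℝ) := ⟨_, rfl⟩
    rw [← hL', hNP] at hih hZ'
    have hPL : L ≤ P := le_trans (le_self_pow₀ hL1 (by omega)) hPlow
    have hLL' : L + 1 ≤ L' := by
      rw [hL', hNP, Real.log_mul hNr.ne' hP0.ne', ← hL]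
      have : 1 ≤ Real.log P := by
        rw [Real.le_log_iff_exp_le hP0]
        have := Real.exp_one_lt_d9
        linarith
      linarith
    have hbig : (2 : ℝ) * (N * P) ≤ (N : ℝ) ^ 3 := by
      have q1 : (N : ℝ) * P ≤ N * N := mul_le_mul_of_nonneg_left hPNr hNr.le
      have q2 : (0 : ℝ) ≤ (N : ℝ) * N := by positivity
      nlinarith only [q1, q2, hE5]
    have hlΛ : ∀ m < 2 * (N * P), lp m ≤ 3 * L := by
      intro m hm
      have q1 : (m : ℝ) ≤ (N : ℝ) ^ 3 := by
        have : (m : ℝ) ≤ 2 * (N * P) := by exact_mod_cast hm.le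
        linarith
      refine (lp_le m _ q1 (one_le_pow₀ (by linarith))).trans (le_of_eq ?_)
      rw [Real.log_pow, ← hL]
      push_cast
      ring
    have hF : ∑ n ∈ Ico (N * P) (2 * (N * P)), (if Dead Z C j n ∨ n ∈ Z then lp n else 0) ≤ N * P / L' ^ b + 3 * (N * P * δ) := by
      have q1 : ∑ n ∈ Ico (N * P) (2 * (N * P)), (if Dead Z C j n ∨ n ∈ Z then lp n else 0) ≤
          ∑ n ∈ Ico (N * P) (2 * (N * P)), ((if Dead Z C j n then lp n else 0) + if n ∈ Z then 3 * L else 0) := by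
        apply sum_le_sum
        intro n hn
        rw [mem_Ico] at hn
        have q2 := lp_nonneg n
        have q3 := hlΛ n hn.2
        by_cases hD : Dead Z C j n
        · rw [if_pos (Or.inl hD), if_pos hD]
          split_ifs <;> linarith
        · by_cases hnZ : n ∈ Z
          · rw [if_pos (Or.inr hnZ), if_neg hD, if_pos hnZ]; linarith
          · rw [if_neg (by tauto), if_neg hD, if_neg hnZ]; linarith
      refine q1.trans ?_
      rw [sum_add_distrib, ← sum_filter (fun n => n ∈ Z), sum_const, nsmul_eq_mul]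
      refine add_le_add hih ?_
      have q2 := mul_le_mul_of_nonneg_right hZ' (by positivity : 0 ≤ 3 * L)
      refine q2.trans ?_
      have q3 : (N : ℝ) * P / L' ^ (b + 6) * (3 * L) ≤ N * P / L ^ (b + 6) * (3 * L) := by
        apply mul_le_mul_of_nonneg_right _ (by positivity)
        exact div_le_div_of_nonneg_left (by positivity) (by positivity) (pow_le_pow_left₀ hL0.le (by linarith) _)
      refine q3.trans (le_of_eq ?_)
      rw [hδ, show b + 6 = (b + 5) + 1 by ring, pow_succ]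
      field_simp
    have hstep : ∀ (v : ℕ → ℝ) (X2 : Finset ℕ), (∀ m, 0 ≤ v m) → (∀ m < 2 * (N * P), v m ≤ 3 * L) → (X2.card : ℝ) ≤ N * P * δ →
        (∀ n ∈ Ico (N * P) (2 * (N * P)), n ∉ X2 → ∑ a ∈ A, v (n / a) ≤ (1 + δ) * A.card) →
        (∑ m ∈ Ico N (2 * N), (if Dead Z C (j + 1) m then v m else 0)) ≤ N / L ^ b := by
      intro v X2 hv0 hvΛ hX2 hX2b
      have q := core N P s A (fun n => Dead Z C j n ∨ n ∈ Z) v X1 X2 δ (3 * L) T (N * P / L' ^ b + 3 * (N * P * δ))
        (fun m => N ≤ m ∧ Dead Z C (j + 1) m)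
        (by
          rintro m ⟨hm, hD⟩ a ha n hn h5 h6
          by_cases hnZ : n ∈ Z
          · exact Or.inr hnZ
          refine Or.inl (hD a n (hA a ha).1 ?_ hn hnZ h5 h6)
          refine (hAr a ha).2.trans (hPup.trans ?_)
          rw [hC]
          apply pow_le_pow_left₀ hL0.le
          rw [hL]
          exact Real.log_le_log hNr (by exact_mod_cast hm))
        hsP (fun a ha => ⟨(hA a ha).1.pos, (hA a ha).2.1, (hA a ha).2.2⟩) hT hδ0.le (by linarith) (by linarith) hv0 hvΛ hlΛ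
        (by
          have q1 : 6 * L * L ^ (b + 5) ≤ P := by
            refine le_trans ?_ hPlow
            have q2 : L ^ (b + 7) ≤ L ^ (max C1 C2 + 1 + (b + 5) + 1) := pow_le_pow_right₀ hL1 (by omega)
            refine le_trans ?_ q2
            have q3 : L ^ (b + 7) = L ^ (b + 5) * (L * L) := by rw [show b + 7 = b + 5 + 2 by ring, pow_add]; ring
            rw [q3]
            have q4 : 0 < L ^ (b + 5) := by positivity
            nlinarith only [q4, hE4, mul_pos q4 hL0]
          have q2 : 3 * L ≤ δ * (P / 2) := by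
            rw [hδ, one_div, inv_mul_eq_div, le_div_iff₀ (by positivity)]
            linarith
          have q3 := mul_le_mul_of_nonneg_left q2 hAc0.le
          have q4 := mul_le_mul_of_nonneg_left hT3 hδ0.le
          linarith [show (A.card : ℝ) * (δ * (P / 2)) = δ * (A.card * P / 2) by ring])
        hX1b hX2b hF
      have e1 : ∑ m ∈ Ico N (2 * N), (if N ≤ m ∧ Dead Z C (j + 1) m then v m else 0) =
          ∑ m ∈ Ico N (2 * N), (if Dead Z C (j + 1) m then v m else 0) := by
        apply sum_congr rfl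
        intro m hm
        rw [mem_Ico] at hm
        simp only [hm.1, true_and]
      rw [e1] at q
      have q' : (∑ m ∈ Ico N (2 * N), (if Dead Z C (j + 1) m then v m else 0)) * ((1 - 2 * δ) * T) ≤
          (1 + δ) * A.card * (N * P / L' ^ b) + A.card * (3 * L) ^ 2 * ((N * s + N * P * δ / 2) + X2.card) + X1.card * (3 * L) * T := by
        have q1 : (1 + δ) * A.card * (3 * (N * P * δ)) ≤ A.card * (3 * L) ^ 2 * (N * P * δ / 2) := by
          have q2 : 0 ≤ (A.card : ℝ) * (N * P * δ) := by positivity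
          have q3 : (1 + δ) * 3 ≤ (3 * L) ^ 2 / 2 := by nlinarith only [hδs, hE4]
          have := mul_le_mul_of_nonneg_left q3 q2
          linarith
        linarith
      apply fin_alg N L L' δ A.card P T X1.card X2.card (N * s + N * P * δ / 2) _ b hb hNr hE4 hLL' hδ hAc0 hP0 hT1 hT2 _
        (Nat.cast_nonneg _) hX2 _ _ q'
      · rw [hδ]; rw [mul_one_div]; exact hX1
      · have q1 : (s : ℝ) ≤ P * δ / 2 := by
          refine hs.trans ?_
          rw [mul_div_assoc]
          apply mul_le_mul_of_nonneg_left _ hP0.le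
          rw [hδ, div_div]
          apply one_div_le_one_div_of_le (by positivity)
          rw [show b + 5 + 1 = (b + 5) + 1 by ring, pow_succ]
          apply mul_le_mul_of_nonneg_left _ (by positivity)
          linarith
        have := mul_le_mul_of_nonneg_left q1 hNr.le
        linarith
      · apply sum_nonneg
        intro m _
        split_ifs
        · exact hv0 m
        · exact le_rfl
    constructor
    · apply hstep lp X2 lp_nonneg hlΛ
      · rw [hδ, mul_one_div]; exact hX2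
      · intro n hn hnX
        rw [hX2d, mem_filter, not_and] at hnX
        have := not_lt.1 (hnX hn)
        rw [hδ]; exact this
    · apply hstep (fun _ => 1) ∅ (fun _ => zero_le_one) (fun _ _ => by linarith)
      · rw [card_empty]; push_cast; positivity
      · intro n _ _
        rw [sum_const, nsmul_eq_mul, mul_one]
        nlinarith only [hδ0, hAc0]

end Pool.Agent.H15.MC
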